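import Mathlib

/-!
Row GPPa (Mathlib only). The two positivity (Hölder) steps.

`hoelder_two`: `c ≤ ∫ B (Z - 1) dμ ≤ ∫_{Z > 1} B Z dμ ≤ (∫ B²)^{1/2} (∫ Z² 1_{Z>1})^{1/2}
≤ (∫ B²)^{1/2} ((∫ Z⁴)^{1/2} μ(Z>1)^{1/2})^{1/2}` (first inequality: `B (Z-1) ≤ B Z 1_{Z>1}` pointwise because
`B ≥ 0`, `Z ≥ 0`; then Cauchy-Schwarz twice, e.g. `MeasureTheory.integral_mul_le_Lp_mul_Lq_of_nonneg` with `p = q = 2`,
or the discriminant trick).  If `B (Z-1)` is not integrable its integral is `0 < c`: contradiction, so integrability is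
free; integrability of `B Z 1_{Z>1}` follows from `B Z ≤ B²/2 + Z²/2`, `Z² ≤ 1 + Z⁴` and the finite measure.
Note `C₁, C₂ ≥ 0` follow from `h1, h2`.

`hoelder_zero`: `c ≤ ∫ B (1 - Z) dμ ≤ ∫_{Z<1} B dμ ≤ (∫ B²)^{1/2} μ(Z<1)^{1/2}`.
-/

open MeasureTheory Set Filter Topology

namespace Pool.Agent.H24.GP

theorem Pa_cs {μ : Measure ℝ} {f g : ℝ → ℝ} (hf : Integrable (fun t => f t ^ 2) μ)
    (hg : Integrable (fun t => g t ^ 2) μ) (hfg : Integrable (fun t => f t * g t) μ) :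
    (∫ t, f t * g t ∂μ) ^ 2 ≤ (∫ t, f t ^ 2 ∂μ) * ∫ t, g t ^ 2 ∂μ := by
  have h1 : ∀ x : ℝ, 0 ≤ (∫ t, f t ^ 2 ∂μ) * (x * x) + (-2 * ∫ t, f t * g t ∂μ) * x + ∫ t, g t ^ 2 ∂μ := by
    intro x
    have h2 : (∫ t, f t ^ 2 ∂μ) * (x * x) + (-2 * ∫ t, f t * g t ∂μ) * x + ∫ t, g t ^ 2 ∂μ =
        ∫ t, (x * f t - g t) ^ 2 ∂μ := by
      have h3 : (fun t => (x * f t - g t) ^ 2) =
          fun t => ((x * x) * f t ^ 2 + (-2 * x) * (f t * g t)) + g t ^ 2 := by
        funext t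
        ring
      have i2 : Integrable (fun t => (x * x) * f t ^ 2 + (-2 * x) * (f t * g t)) μ :=
        (hf.const_mul _).add (hfg.const_mul _)
      rw [h3, integral_add i2 hg, integral_add (hf.const_mul _) (hfg.const_mul _),
        integral_const_mul, integral_const_mul]
      ring
    rw [h2]
    exact integral_nonneg fun t => sq_nonneg _
  have h4 := discrim_le_zero h1
  unfold discrim at h4
  nlinarith [h4]

theorem hoelder_two {μ : Measure ℝ} [IsFiniteMeasure μ] {B Z : ℝ → ℝ} (hB : Continuous B) (hZ : Continuous Z)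
    (hB0 : ∀ t, 0 ≤ B t) (hZ0 : ∀ t, 0 ≤ Z t) (iB : Integrable (fun t => B t ^ 2) μ)
    (iZ : Integrable (fun t => Z t ^ 4) μ) {c C₁ C₂ : ℝ} (hc : 0 < c)
    (h1 : ∫ t, B t ^ 2 ∂μ ≤ C₁) (h2 : ∫ t, Z t ^ 4 ∂μ ≤ C₂)
    (h : c ≤ ∫ t, B t * (Z t - 1) ∂μ) :
    c ^ 4 ≤ C₁ ^ 2 * C₂ * μ.real {t | 1 < Z t} := by
  have hA : MeasurableSet {t | 1 < Z t} := measurableSet_lt measurable_const hZ.measurable
  have hgm : AEStronglyMeasurable (fun t => indicator {t | 1 < Z t} Z t) μ :=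
    (hZ.measurable.indicator hA).aestronglyMeasurable
  have hg0 : ∀ t, 0 ≤ indicator {t | 1 < Z t} Z t := fun t => indicator_nonneg (fun s _ => hZ0 s) t
  have hgZ : ∀ t, indicator {t | 1 < Z t} Z t ≤ Z t := fun t => indicator_le_self' (fun s _ => hZ0 s) t
  have hZ2 : ∀ t, Z t ^ 2 ≤ 1 + Z t ^ 4 := fun t => by nlinarith [sq_nonneg (Z t ^ 2 - 1)]
  have i1 : Integrable (fun _ : ℝ => (1 : ℝ)) μ := integrable_const _
  have iD : Integrable (fun t => 1 + Z t ^ 4) μ := i1.add iZ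
  have ig2 : Integrable (fun t => indicator {t | 1 < Z t} Z t ^ 2) μ := by
    refine iD.mono' (hgm.pow 2) (Eventually.of_forall fun t => ?_)
    rw [Real.norm_of_nonneg (sq_nonneg _)]
    exact (pow_le_pow_left₀ (hg0 t) (hgZ t) 2).trans (hZ2 t)
  have iBg : Integrable (fun t => B t * indicator {t | 1 < Z t} Z t) μ := by
    refine (iB.add iD).mono' (hB.aestronglyMeasurable.mul hgm) (Eventually.of_forall fun t => ?_)
    rw [Real.norm_of_nonneg (mul_nonneg (hB0 t) (hg0 t))]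
    show _ ≤ B t ^ 2 + (1 + Z t ^ 4)
    have h3 : B t * indicator {t | 1 < Z t} Z t ≤ B t * Z t := mul_le_mul_of_nonneg_left (hgZ t) (hB0 t)
    have h4 := hZ2 t
    nlinarith [sq_nonneg (B t - Z t), sq_nonneg (B t), sq_nonneg (Z t)]
  have hint : Integrable (fun t => B t * (Z t - 1)) μ := by
    by_contra hn
    rw [integral_undef hn] at h
    linarith
  have s1 : c ≤ ∫ t, B t * indicator {t | 1 < Z t} Z t ∂μ := by
    refine h.trans (integral_mono hint iBg fun t => ?_)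
    show B t * (Z t - 1) ≤ B t * indicator {t | 1 < Z t} Z t
    refine mul_le_mul_of_nonneg_left ?_ (hB0 t)
    by_cases ht : 1 < Z t
    · rw [indicator_of_mem (show t ∈ {t | 1 < Z t} from ht)]
      linarith
    · rw [indicator_of_notMem (show t ∉ {t | 1 < Z t} from ht)]
      linarith [not_lt.1 ht]
  have s2 := Pa_cs iB ig2 iBg
  have iI2 : Integrable (fun t => indicator {t | 1 < Z t} (fun _ => (1 : ℝ)) t ^ 2) μ := by
    have h5 : (fun t => indicator {t | 1 < Z t} (fun _ => (1 : ℝ)) t ^ 2) =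
        indicator {t | 1 < Z t} (fun _ => (1 : ℝ)) := by
      funext t
      by_cases ht : t ∈ {t | 1 < Z t}
      · rw [indicator_of_mem ht, one_pow]
      · rw [indicator_of_notMem ht, zero_pow two_ne_zero]
    rw [h5]
    exact i1.indicator hA
  have e1 : (fun t => indicator {t | 1 < Z t} Z t ^ 2) =
      fun t => Z t ^ 2 * indicator {t | 1 < Z t} (fun _ => (1 : ℝ)) t := by
    funext t
    by_cases ht : t ∈ {t | 1 < Z t}
    · rw [indicator_of_mem ht, indicator_of_mem ht, mul_one]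
    · rw [indicator_of_notMem ht, indicator_of_notMem ht, mul_zero, zero_pow two_ne_zero]
  have e2 : (fun t => (Z t ^ 2) ^ 2) = fun t => Z t ^ 4 := by
    funext t
    ring
  have e3 : ∫ t, indicator {t | 1 < Z t} (fun _ => (1 : ℝ)) t ^ 2 ∂μ = μ.real {t | 1 < Z t} := by
    have h5 : (fun t => indicator {t | 1 < Z t} (fun _ => (1 : ℝ)) t ^ 2) =
        indicator {t | 1 < Z t} (fun _ => (1 : ℝ)) := by
      funext t
      by_cases ht : t ∈ {t | 1 < Z t}
      · rw [indicator_of_mem ht, one_pow]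
      · rw [indicator_of_notMem ht, zero_pow two_ne_zero]
    rw [h5, integral_indicator hA, setIntegral_const, smul_eq_mul, mul_one]
  have s3 : (∫ t, indicator {t | 1 < Z t} Z t ^ 2 ∂μ) ^ 2 ≤
      (∫ t, Z t ^ 4 ∂μ) * μ.real {t | 1 < Z t} := by
    have h6 := Pa_cs (μ := μ) (f := fun t => Z t ^ 2)
      (g := fun t => indicator {t | 1 < Z t} (fun _ => (1 : ℝ)) t) (by rw [e2]; exact iZ) iI2
      (by rw [← e1]; exact ig2)
    rw [← e1, e2, e3] at h6
    exact h6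
  have n1 : 0 ≤ ∫ t, B t ^ 2 ∂μ := integral_nonneg fun t => sq_nonneg _
  have n2 : 0 ≤ ∫ t, indicator {t | 1 < Z t} Z t ^ 2 ∂μ := integral_nonneg fun t => sq_nonneg _
  have n3 : 0 ≤ μ.real {t | 1 < Z t} := measureReal_nonneg
  generalize μ.real {t | 1 < Z t} = m at *
  generalize (∫ t, indicator {t | 1 < Z t} Z t ^ 2 ∂μ) = G at *
  generalize (∫ t, B t ^ 2 ∂μ) = Q at *
  generalize (∫ t, Z t ^ 4 ∂μ) = W at *
  generalize (∫ t, B t * indicator {t | 1 < Z t} Z t ∂μ) = P at *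
  have t1 : c ^ 2 ≤ Q * G := (pow_le_pow_left₀ hc.le s1 2).trans s2
  have t2 : c ^ 4 ≤ (Q * G) ^ 2 := by
    have := pow_le_pow_left₀ (sq_nonneg c) t1 2
    calc c ^ 4 = (c ^ 2) ^ 2 := by ring
      _ ≤ _ := this
  have t3 : (Q * G) ^ 2 ≤ C₁ ^ 2 * (C₂ * m) := by
    rw [mul_pow]
    refine mul_le_mul (pow_le_pow_left₀ n1 h1 2) (s3.trans (mul_le_mul_of_nonneg_right h2 n3))
      (sq_nonneg _) (sq_nonneg _)
  calc c ^ 4 ≤ _ := t2
    _ ≤ _ := t3
    _ = C₁ ^ 2 * C₂ * m := by ring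

theorem hoelder_zero {μ : Measure ℝ} [IsFiniteMeasure μ] {B Z : ℝ → ℝ} (hB : Continuous B) (hZ : Continuous Z)
    (hB0 : ∀ t, 0 ≤ B t) (hZ0 : ∀ t, 0 ≤ Z t) (iB : Integrable (fun t => B t ^ 2) μ)
    {c C₁ : ℝ} (hc : 0 < c) (h1 : ∫ t, B t ^ 2 ∂μ ≤ C₁)
    (h : c ≤ ∫ t, B t * (1 - Z t) ∂μ) :
    c ^ 2 ≤ C₁ * μ.real {t | Z t < 1} := by
  have hA : MeasurableSet {t | Z t < 1} := measurableSet_lt hZ.measurable measurable_const
  have i1 : Integrable (fun _ : ℝ => (1 : ℝ)) μ := integrable_const _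
  have h5 : (fun t => indicator {t | Z t < 1} (fun _ => (1 : ℝ)) t ^ 2) =
      indicator {t | Z t < 1} (fun _ => (1 : ℝ)) := by
    funext t
    by_cases ht : t ∈ {t | Z t < 1}
    · rw [indicator_of_mem ht, one_pow]
    · rw [indicator_of_notMem ht, zero_pow two_ne_zero]
  have iI2 : Integrable (fun t => indicator {t | Z t < 1} (fun _ => (1 : ℝ)) t ^ 2) μ := by
    rw [h5]
    exact i1.indicator hA
  have e3 : ∫ t, indicator {t | Z t < 1} (fun _ => (1 : ℝ)) t ^ 2 ∂μ = μ.real {t | Z t < 1} := by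
    rw [h5, integral_indicator hA, setIntegral_const, smul_eq_mul, mul_one]
  have hgm : AEStronglyMeasurable (fun t => indicator {t | Z t < 1} (fun _ => (1 : ℝ)) t) μ :=
    (measurable_const.indicator hA).aestronglyMeasurable
  have hI0 : ∀ t, 0 ≤ indicator {t | Z t < 1} (fun _ => (1 : ℝ)) t := fun t =>
    indicator_nonneg (fun _ _ => zero_le_one) t
  have hI1 : ∀ t, indicator {t | Z t < 1} (fun _ => (1 : ℝ)) t ≤ 1 := fun t =>
    indicator_le_self' (fun _ _ => zero_le_one) t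
  have iBg : Integrable (fun t => B t * indicator {t | Z t < 1} (fun _ => (1 : ℝ)) t) μ := by
    refine (iB.add i1).mono' (hB.aestronglyMeasurable.mul hgm) (Eventually.of_forall fun t => ?_)
    rw [Real.norm_of_nonneg (mul_nonneg (hB0 t) (hI0 t))]
    show _ ≤ B t ^ 2 + 1
    have h3 : B t * indicator {t | Z t < 1} (fun _ => (1 : ℝ)) t ≤ B t * 1 :=
      mul_le_mul_of_nonneg_left (hI1 t) (hB0 t)
    nlinarith [sq_nonneg (B t - 1), sq_nonneg (B t)]
  have hint : Integrable (fun t => B t * (1 - Z t)) μ := by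
    by_contra hn
    rw [integral_undef hn] at h
    linarith
  have s1 : c ≤ ∫ t, B t * indicator {t | Z t < 1} (fun _ => (1 : ℝ)) t ∂μ := by
    refine h.trans (integral_mono hint iBg fun t => ?_)
    show B t * (1 - Z t) ≤ B t * indicator {t | Z t < 1} (fun _ => (1 : ℝ)) t
    refine mul_le_mul_of_nonneg_left ?_ (hB0 t)
    by_cases ht : Z t < 1
    · rw [indicator_of_mem (show t ∈ {t | Z t < 1} from ht)]
      linarith [hZ0 t]
    · rw [indicator_of_notMem (show t ∉ {t | Z t < 1} from ht)]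
      linarith [not_lt.1 ht]
  have s2 := Pa_cs iB iI2 iBg
  rw [e3] at s2
  calc c ^ 2 ≤ _ := pow_le_pow_left₀ hc.le s1 2
    _ ≤ _ := s2
    _ ≤ C₁ * μ.real {t | Z t < 1} := mul_le_mul_of_nonneg_right h1 measureReal_nonneg

end Pool.Agent.H24.GP
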