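import Mathlib
import Pool.Agent.H6.Final

/-!
Row GPPe. Conclusion of the small gap theorem from the measure statement.
-/

open MeasureTheory Set Filter Topology
open Pool.Agent Pool.Agent.H6
open scoped Real

namespace Pool.Agent.H24.GP

/-- pointwise inequality -/
lemma PeA_pt {ι : Type*} (F : Finset ι) (γ w : ι → ℝ) (hw : ∀ i ∈ F, w i = 1 ∨ 2 ≤ w i) (q : ι → Prop) [DecidablePred q] :
    0 ≤ (∑ i ∈ F, ∑ j ∈ F, if γ j ≤ γ i ∧ q i ∧ q j then w i * w j else 0) - ∑ i ∈ F, (if q i then w i else 0) ∧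
    (1 < ∑ i ∈ F, (if q i then w i else 0) →
      1 ≤ (∑ i ∈ F, ∑ j ∈ F, if γ j ≤ γ i ∧ q i ∧ q j then w i * w j else 0) - ∑ i ∈ F, (if q i then w i else 0)) := by
  classical
  have hw1 : ∀ i ∈ F, 1 ≤ w i := fun i hi => by rcases hw i hi with h | h <;> linarith
  have hnn : ∀ i ∈ F, ∀ j ∈ F, 0 ≤ (if γ j ≤ γ i ∧ q i ∧ q j then w i * w j else 0) := by
    intro i hi j hj
    split_ifs
    · have := hw1 i hi; have := hw1 j hj; positivity
    · exact le_rfl
  -- diagonal terms
  have hdiag : ∀ i ∈ F, (if q i then w i else 0) ≤ ∑ j ∈ F, if γ j ≤ γ i ∧ q i ∧ q j then w i * w j else 0 := by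
    intro i hi
    refine le_trans ?_ (Finset.single_le_sum (fun j hj => hnn i hi j hj) hi)
    by_cases h : q i
    · rw [if_pos h, if_pos ⟨le_rfl, h, h⟩]
      have := hw1 i hi
      nlinarith
    · rw [if_neg h, if_neg (fun h' => h h'.2.1)]
  rw [← Finset.sum_sub_distrib]
  have hterm : ∀ i ∈ F, 0 ≤ (∑ j ∈ F, if γ j ≤ γ i ∧ q i ∧ q j then w i * w j else 0) - (if q i then w i else 0) :=
    fun i hi => sub_nonneg.2 (hdiag i hi)
  refine ⟨Finset.sum_nonneg hterm, fun h1 => ?_⟩
  -- choose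
  by_cases hbig : ∃ i ∈ F, q i ∧ 2 ≤ w i
  · obtain ⟨i, hi, hqi, hwi⟩ := hbig
    refine le_trans ?_ (Finset.single_le_sum hterm hi)
    have h2 : w i * w i ≤ ∑ j ∈ F, if γ j ≤ γ i ∧ q i ∧ q j then w i * w j else 0 := by
      refine le_trans ?_ (Finset.single_le_sum (fun j hj => hnn i hi j hj) hi)
      rw [if_pos ⟨le_rfl, hqi, hqi⟩]
    rw [if_pos hqi]
    nlinarith
  · push Not at hbig
    have hone : ∀ i ∈ F, q i → w i = 1 := by
      intro i hi hq
      rcases hw i hi with h | h
      · exact h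
      · exact absurd h (not_le.2 (hbig i hi hq))
    -- two different elements
    have h3 : 1 < (F.filter q).card := by
      have : ∑ i ∈ F, (if q i then w i else 0) = ((F.filter q).card : ℝ) := by
        rw [← Finset.sum_filter, Finset.card_eq_sum_ones]
        push_cast
        apply Finset.sum_congr rfl
        intro i hi
        rw [Finset.mem_filter] at hi
        exact hone i hi.1 hi.2
      rw [this] at h1
      exact_mod_cast h1
    obtain ⟨a, ha, b, hb, hab⟩ := Finset.one_lt_card.1 h3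
    rw [Finset.mem_filter] at ha hb
    wlog hle : γ b ≤ γ a generalizing a b
    · exact this b hb a ha hab.symm (le_of_not_ge hle)
    refine le_trans ?_ (Finset.single_le_sum hterm ha.1)
    rw [if_pos ha.2, hone a ha.1 ha.2]
    have h4 : (∑ j ∈ ({a, b} : Finset ι), if γ j ≤ γ a ∧ q a ∧ q j then w a * w j else 0) ≤
        ∑ j ∈ F, if γ j ≤ γ a ∧ q a ∧ q j then w a * w j else 0 := by
      apply Finset.sum_le_sum_of_subset_of_nonneg
      · intro x hx
        simp only [Finset.mem_insert, Finset.mem_singleton] at hx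
        rcases hx with rfl | rfl
        · exact ha.1
        · exact hb.1
      · intro j hj _
        exact hnn a ha.1 j hj
    rw [Finset.sum_pair hab, if_pos ⟨le_rfl, ha.2, ha.2⟩, if_pos ⟨hle, ha.2, hb.2⟩, hone a ha.1 ha.2,
      hone b hb.1 hb.2] at h4
    have h5 : (∑ j ∈ F, if γ j ≤ γ a ∧ q a ∧ q j then (1:ℝ) * w j else 0) =
        ∑ j ∈ F, if γ j ≤ γ a ∧ q a ∧ q j then w a * w j else 0 := by
      rw [hone a ha.1 ha.2]
    rw [h5]
    linarith

theorem windows_two {ι : Type*} (F : Finset ι) (γ w : ι → ℝ) (hw : ∀ i ∈ F, w i = 1 ∨ 2 ≤ w i)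
    {δ : ℝ} (hδ : 0 < δ) {S : Set ℝ} (hS : MeasurableSet S)
    (h2 : ∀ t ∈ S, 1 < ∑ i ∈ F, if |t - γ i| ≤ δ / 2 then w i else 0) :
    volume.real S ≤ δ * ((∑ i ∈ F, ∑ j ∈ F, if 0 ≤ γ i - γ j ∧ γ i - γ j ≤ δ then w i * w j else 0)
      - ∑ i ∈ F, w i) := by
  classical
  have hw1 : ∀ i ∈ F, 1 ≤ w i := fun i hi => by rcases hw i hi with h | h <;> linarith
  set A : ι → Set ℝ := fun i => Icc (γ i - δ / 2) (γ i + δ / 2) with hA
  have hAmem : ∀ i t, |t - γ i| ≤ δ / 2 ↔ t ∈ A i := by
    intro i t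
    rw [abs_le, hA]
    simp only [mem_Icc]
    constructor
    · rintro ⟨h3, h4⟩; constructor <;> linarith
    · rintro ⟨h3, h4⟩; constructor <;> linarith
  -- integrals of the elementary functions
  have hAI : ∀ i, IntegrableOn (fun _ : ℝ => (1:ℝ)) (A i) := by
    intro i
    rw [hA]
    exact integrableOn_const (by rw [Real.volume_Icc]; exact ENNReal.ofReal_ne_top)
  have hAv : ∀ i, volume.real (A i) = δ := by
    intro i
    rw [hA]
    simp only [Measure.real, Real.volume_Icc]
    rw [ENNReal.toReal_ofReal (by linarith)]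
    ring
  have hAm : ∀ i, MeasurableSet (A i) := fun i => measurableSet_Icc
  -- the single terms
  have i1 : ∀ i, Integrable (fun t => if |t - γ i| ≤ δ / 2 then w i else 0) := by
    intro i
    have e : (fun t => if |t - γ i| ≤ δ / 2 then w i else 0) = (A i).indicator (fun _ => w i) := by
      funext t
      simp only [indicator, ← hAmem]
    rw [e, integrable_indicator_iff (hAm i)]
    exact integrableOn_const (by rw [hA, Real.volume_Icc]; exact ENNReal.ofReal_ne_top)
  have v1 : ∀ i, ∫ t, (if |t - γ i| ≤ δ / 2 then w i else 0) = δ * w i := by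
    intro i
    have e : (fun t => if |t - γ i| ≤ δ / 2 then w i else 0) = (A i).indicator (fun _ => w i) := by
      funext t
      simp only [indicator, ← hAmem]
    rw [e, integral_indicator (hAm i), setIntegral_const, hAv, smul_eq_mul]
  have e2 : ∀ i j, (fun t => if γ j ≤ γ i ∧ |t - γ i| ≤ δ / 2 ∧ |t - γ j| ≤ δ / 2 then w i * w j else 0) =
      (A i ∩ A j).indicator (fun _ => if γ j ≤ γ i then w i * w j else 0) := by
    intro i j
    funext t
    simp only [indicator, mem_inter_iff, ← hAmem]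
    by_cases h3 : γ j ≤ γ i
    · by_cases h4 : |t - γ i| ≤ δ / 2 ∧ |t - γ j| ≤ δ / 2
      · rw [if_pos ⟨h3, h4⟩, if_pos h4, if_pos h3]
      · rw [if_neg (fun h => h4 h.2), if_neg h4]
    · rw [if_neg (fun h => h3 h.1), if_neg h3, ite_self]
  have hIfin : ∀ i j, volume (A i ∩ A j) ≠ ⊤ := by
    intro i j
    refine ne_top_of_le_ne_top ?_ (measure_mono inter_subset_left)
    rw [hA, Real.volume_Icc]
    exact ENNReal.ofReal_ne_top
  have i2 : ∀ i j, Integrable (fun t => if γ j ≤ γ i ∧ |t - γ i| ≤ δ / 2 ∧ |t - γ j| ≤ δ / 2 then w i * w j else 0) := by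
    intro i j
    rw [e2, integrable_indicator_iff ((hAm i).inter (hAm j))]
    exact integrableOn_const (hIfin i j)
  have v2 : ∀ i ∈ F, ∀ j ∈ F, ∫ t, (if γ j ≤ γ i ∧ |t - γ i| ≤ δ / 2 ∧ |t - γ j| ≤ δ / 2 then w i * w j else 0) ≤
      δ * (if 0 ≤ γ i - γ j ∧ γ i - γ j ≤ δ then w i * w j else 0) := by
    intro i hi j hj
    have hwp : 0 ≤ w i * w j := by
      have := hw1 i hi; have := hw1 j hj; positivity
    rw [e2, integral_indicator ((hAm i).inter (hAm j)), setIntegral_const, smul_eq_mul]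
    by_cases h3 : γ j ≤ γ i
    · rw [if_pos h3]
      by_cases h4 : γ i - γ j ≤ δ
      · rw [if_pos ⟨by linarith, h4⟩]
        apply mul_le_mul_of_nonneg_right _ hwp
        rw [← hAv i]
        exact measureReal_mono inter_subset_left (by rw [hA, Real.volume_Icc]; exact ENNReal.ofReal_ne_top)
      · rw [if_neg (fun h => h4 h.2)]
        have : A i ∩ A j = ∅ := by
          apply eq_empty_of_forall_notMem
          rintro t ⟨h5, h6⟩
          rw [hA] at h5 h6
          simp only [mem_Icc] at h5 h6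
          linarith [h5.1, h6.2]
        rw [this]
        simp
    · rw [if_neg h3, mul_zero, if_neg (fun h => h3 (by linarith [h.1])), mul_zero]
  -- the function
  set G : ℝ → ℝ := fun t => (∑ i ∈ F, ∑ j ∈ F,
      if γ j ≤ γ i ∧ |t - γ i| ≤ δ / 2 ∧ |t - γ j| ≤ δ / 2 then w i * w j else 0) -
      ∑ i ∈ F, (if |t - γ i| ≤ δ / 2 then w i else 0) with hG
  have hGi1 : Integrable (fun t => ∑ i ∈ F, ∑ j ∈ F,
      if γ j ≤ γ i ∧ |t - γ i| ≤ δ / 2 ∧ |t - γ j| ≤ δ / 2 then w i * w j else 0) :=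
    integrable_finsetSum _ fun i _ => integrable_finsetSum _ fun j _ => i2 i j
  have hGi2 : Integrable (fun t => ∑ i ∈ F, (if |t - γ i| ≤ δ / 2 then w i else 0)) :=
    integrable_finsetSum _ fun i _ => i1 i
  have hGi : Integrable G := hGi1.sub hGi2
  have hG0 : ∀ t, 0 ≤ G t := fun t => (PeA_pt F γ w hw (fun i => |t - γ i| ≤ δ / 2)).1
  have hG1 : ∀ t ∈ S, 1 ≤ G t := fun t ht => (PeA_pt F γ w hw (fun i => |t - γ i| ≤ δ / 2)).2 (h2 t ht)
  have hint : ∫ t, G t = (∑ i ∈ F, ∑ j ∈ F, ∫ t,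
      (if γ j ≤ γ i ∧ |t - γ i| ≤ δ / 2 ∧ |t - γ j| ≤ δ / 2 then w i * w j else 0)) - ∑ i ∈ F, δ * w i := by
    rw [hG, integral_sub hGi1 hGi2, integral_finsetSum _ (fun i _ => integrable_finsetSum _ fun j _ => i2 i j),
      integral_finsetSum _ (fun i _ => i1 i)]
    congr 1
    · apply Finset.sum_congr rfl
      intro i _
      rw [integral_finsetSum _ (fun j _ => i2 i j)]
    · apply Finset.sum_congr rfl
      intro i _
      rw [v1]
  have hle : volume.real S ≤ ∫ t, G t := by
    have h3 : volume.real S = ∫ t, S.indicator (fun _ => (1:ℝ)) t := by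
      rw [integral_indicator hS, setIntegral_const, smul_eq_mul, mul_one]
    rw [h3]
    by_cases hfin : volume S = ⊤
    · rw [integral_indicator hS, setIntegral_const, Measure.real, hfin]
      simp only [ENNReal.toReal_top, zero_smul]
      exact integral_nonneg hG0
    · apply integral_mono
      · rw [integrable_indicator_iff hS]
        exact integrableOn_const hfin
      · exact hGi
      · intro t
        by_cases ht : t ∈ S
        · rw [indicator_of_mem ht]; exact hG1 t ht
        · rw [indicator_of_notMem ht]; exact hG0 t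
  refine hle.trans ?_
  rw [hint, mul_sub, Finset.mul_sum, Finset.mul_sum]
  apply sub_le_sub_right
  apply Finset.sum_le_sum
  intro i hi
  rw [Finset.mul_sum]
  exact Finset.sum_le_sum fun j hj => v2 i hi j hj

theorem small_of_measure (RH : RiemannHypothesis) {ψ : ℝ → ℝ} (hψc : Continuous ψ) (hψ0 : ∀ x, 0 ≤ ψ x)
    (hψ1 : ∀ x, ψ x ≤ 1) {μ b : ℝ} (hμ : 0 < μ) (hb : μ < b) (hψs : ∀ x, μ / 2 < |x| → ψ x = 0)
    (h : ∃ R c : ℝ, 1 ≤ R ∧ 0 < c ∧ ∀ᶠ T in atTop,
      c * T ≤ volume.real ({t | 1 < SS gZ wZ ψ (Real.log T) t} ∩ Icc (T / R) (R * T))) :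
    ∃ c : ℝ, 0 < c ∧ ∀ᶠ T in atTop, (1 + c) * PC.norm T ≤ PC.pairCount T 0 b := by
  classical
  obtain ⟨R, c, hR, hc, hev⟩ := h
  obtain ⟨CR, I⟩ := exists_inputs RH
  have hR0 : 0 < R := by linarith
  have hb0 : 0 < b := hμ.trans hb
  have hpi := Real.pi_pos
  have hcnt := I.count
  set ε : ℝ := c / (8 * R * μ) with hε
  have hε0 : 0 < ε := by positivity
  refine ⟨ε, hε0, ?_⟩
  have hT' : Tendsto (fun T : ℝ => T / (2 * R)) atTop atTop := tendsto_id.atTop_div_const (by positivity)
  have hlog := Real.tendsto_log_atTop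
  have hlogT' : Tendsto (fun T : ℝ => Real.log (T / (2 * R))) atTop atTop := hlog.comp hT'
  have E1 := hT'.eventually hev
  have E2 := hcnt.eventually (lt_mem_nhds (show 1 - ε < 1 by linarith))
  have E3 : ∀ᶠ T : ℝ in atTop, 1 ≤ Real.log (T / (2 * R)) := hlogT'.eventually_ge_atTop 1
  have E4 : ∀ᶠ T : ℝ in atTop, 2 * Real.log (2 * R) ≤ Real.log T := hlog.eventually_ge_atTop _
  have E5 : ∀ᶠ T : ℝ in atTop, b * Real.log (2 * R) / (b - μ) ≤ Real.log T := hlog.eventually_ge_atTop _
  have E6 : ∀ᶠ T : ℝ in atTop, 2 * π * μ * (2 * R ^ 2) + 1 ≤ T := eventually_ge_atTop _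
  have E7 : ∀ᶠ T : ℝ in atTop, 2 * π * μ + 2 ≤ T := eventually_ge_atTop _
  filter_upwards [E1, E2, E3, E4, E5, E6, E7] with T h1 h2 h3 h4 h5 h6 h7
  have hT0 : 0 < T := by nlinarith
  set T' : ℝ := T / (2 * R) with hT'd
  have hT'0 : 0 < T' := by positivity
  set L' : ℝ := Real.log T' with hL'
  have hL0 : 0 < L' := by linarith
  set δ : ℝ := 2 * π * μ / L' with hδ
  have hδ0 : 0 < δ := by positivity
  have hδle : δ ≤ 2 * π * μ := by
    rw [hδ]
    exact div_le_self (by positivity) h3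
  have hlogT : Real.log T = L' + Real.log (2 * R) := by
    rw [hL', hT'd, Real.log_div hT0.ne' (by positivity)]
    ring
  have hlogT0 : 0 < Real.log T := by
    have : 0 ≤ Real.log (2 * R) := Real.log_nonneg (by linarith)
    linarith
  set S : Set ℝ := {t | 1 < SS gZ wZ ψ L' t} ∩ Icc (T' / R) (R * T') with hS
  set g : ℝ → ℝ := fun t => ∑ i ∈ FZ T, wZ i * ψ (L' * (t - gZ i) / (2 * π)) with hg
  have hRT' : R * T' = T / 2 := by rw [hT'd]; field_simp
  have hT'R : T' / R = T / (2 * R ^ 2) := by rw [hT'd]; field_simp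
  -- the support
  have hsupp : ∀ t, ∀ i, ψ (L' * (t - gZ i) / (2 * π)) ≠ 0 → |t - gZ i| ≤ δ / 2 := by
    intro t i hne
    by_contra hcon
    push Not at hcon
    apply hne
    apply hψs
    rw [abs_div, abs_mul, abs_of_pos hL0, abs_of_pos (show (0:ℝ) < 2 * π by positivity), lt_div_iff₀ (by positivity)]
    have e1 : δ / 2 * L' = π * μ := by
      rw [hδ]; field_simp
    have e2 : δ / 2 * L' < |t - gZ i| * L' := mul_lt_mul_of_pos_right hcon hL0
    nlinarith
  have hSS : ∀ t ∈ Icc (T' / R) (R * T'), SS gZ wZ ψ L' t = g t := by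
    intro t ht
    rw [hRT', hT'R] at ht
    unfold SS
    apply tsum_eq_sum
    intro i hi
    by_contra hcon
    apply hi
    have hne : ψ (L' * (t - gZ i) / (2 * π)) ≠ 0 := fun h => hcon (by rw [h, mul_zero])
    have h8 := hsupp t i hne
    rw [abs_le] at h8
    rw [mem_FZ]
    have h9 : 2 * π * μ < T / (2 * R ^ 2) := by
      rw [lt_div_iff₀ (by positivity)]
      linarith
    constructor
    · linarith [ht.1, h8.2]
    · linarith [ht.2, h8.1]
  have hgc : Continuous g := by
    rw [hg]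
    fun_prop
  have hSeq : S = {t | 1 < g t} ∩ Icc (T' / R) (R * T') := by
    ext t
    simp only [hS, mem_inter_iff, mem_ofPred_eq]
    constructor
    · rintro ⟨h8, h9⟩
      exact ⟨by rw [← hSS t h9]; exact h8, h9⟩
    · rintro ⟨h8, h9⟩
      exact ⟨by rw [hSS t h9]; exact h8, h9⟩
  have hSm : MeasurableSet S := by
    rw [hSeq]
    exact ((isOpen_lt continuous_const hgc).measurableSet).inter measurableSet_Icc
  have hwi : ∀ i ∈ FZ T, wZ i = 1 ∨ 2 ≤ wZ i := by
    intro i _
    have h8 := one_le_wZ i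
    unfold wZ at h8 ⊢
    have h9 : 1 ≤ PC.m i := by exact_mod_cast h8
    rcases Nat.lt_or_ge (PC.m i) 2 with h10 | h10
    · left
      have : PC.m i = 1 := by omega
      rw [this]; norm_num
    · right
      exact_mod_cast h10
  have hwin := windows_two (FZ T) gZ wZ hwi hδ0 hSm (by
    intro t ht
    have h8 := ht.1
    simp only [mem_ofPred_eq] at h8
    rw [hSS t ht.2] at h8
    refine h8.trans_le ?_
    rw [hg]
    apply Finset.sum_le_sum
    intro i _
    by_cases h9 : |t - gZ i| ≤ δ / 2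
    · rw [if_pos h9]
      have := wZ_nonneg i
      nlinarith [hψ1 (L' * (t - gZ i) / (2 * π))]
    · rw [if_neg h9]
      by_contra hcon
      push Not at hcon
      apply h9
      apply hsupp
      intro h10
      rw [h10, mul_zero] at hcon
      exact lt_irrefl _ hcon)
  have hδb : δ ≤ 2 * π * b / Real.log T := by
    rw [hδ, div_le_div_iff₀ hL0 hlogT0]
    have h8 : b * Real.log (2 * R) ≤ (b - μ) * Real.log T := by
      rw [div_le_iff₀ (by linarith)] at h5
      linarith
    have h9 : μ * Real.log T ≤ b * L' := by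
      rw [show L' = Real.log T - Real.log (2 * R) by rw [hlogT]; ring]
      linarith
    nlinarith
  have hpair : (∑ i ∈ FZ T, ∑ j ∈ FZ T, if 0 ≤ gZ i - gZ j ∧ gZ i - gZ j ≤ δ then wZ i * wZ j else 0) ≤
      PC.pairCount T 0 b := by
    rw [pairCount_eq RH]
    apply Finset.sum_le_sum
    intro i _
    apply Finset.sum_le_sum
    intro j _
    have hwp : 0 ≤ wZ i * wZ j := mul_nonneg (wZ_nonneg i) (wZ_nonneg j)
    by_cases h8 : 0 ≤ gZ i - gZ j ∧ gZ i - gZ j ≤ δ
    · rw [if_pos h8, if_pos]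
      constructor
      · rw [mul_zero, zero_div]; exact h8.1
      · exact h8.2.trans hδb
    · rw [if_neg h8]
      split_ifs
      · exact hwp
      · exact le_rfl
  have hnorm0 : 0 < PC.norm T := by
    unfold PC.norm
    positivity
  have hcount : (1 - ε) * PC.norm T ≤ ∑ i ∈ FZ T, wZ i := by
    have h8 : 1 - ε ≤ 1 / PC.norm T * ∑ i ∈ FZ T, wZ i := h2.le
    rw [div_mul_eq_mul_div, one_mul, le_div_iff₀ hnorm0] at h8
    exact h8
  have hvol : c * T' ≤ δ * (PC.pairCount T 0 b - ∑ i ∈ FZ T, wZ i) := by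
    refine h1.trans (hwin.trans ?_)
    apply mul_le_mul_of_nonneg_left _ hδ0.le
    linarith
  have hfin : 2 * ε * PC.norm T ≤ PC.pairCount T 0 b - ∑ i ∈ FZ T, wZ i := by
    have h8 : c * T' / δ ≤ PC.pairCount T 0 b - ∑ i ∈ FZ T, wZ i := by
      rw [div_le_iff₀ hδ0]
      linarith
    refine le_trans ?_ h8
    have h9 : c * T' / δ = c * T * L' / (4 * R * π * μ) := by
      rw [hδ, hT'd]
      field_simp
      ring
    rw [h9]
    have h10 : Real.log T / 2 ≤ L' := by
      have : L' = Real.log T - Real.log (2 * R) := by rw [hlogT]; ring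
      rw [this]
      linarith
    have h11 : 2 * ε * PC.norm T = c * T * (Real.log T / 2) / (4 * R * π * μ) := by
      unfold PC.norm
      rw [hε]
      field_simp
      ring
    rw [h11]
    apply div_le_div_of_nonneg_right _ (by positivity)
    exact mul_le_mul_of_nonneg_left h10 (by positivity)
  nlinarith

end Pool.Agent.H24.GP
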