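import Mathlib

/-!
Row GPPd (Mathlib only). Many empty windows give many large gaps.

`G` = set of ordinates, locally finite in `(0,T]`.  Let `D = {g ∈ G | x - V ≤ g, 0 < g ≤ T, next point of G is > g + δ}`.
For `t ∈ S` let `g t` = the largest element of `G ∩ (0, t)` (exists: `G ∩ (0,T]` is finite and contains `g₀ < x ≤ t`).
No point of `G` is in `[t - δ/2, t + δ/2]`, so `g t < t - δ/2` and every `g' ∈ G` with `g' > g t` has `g' ≥ t` hence
`g' > t + δ/2 > g t + δ`.  If `t - g t ≤ V` then `g t ≥ x - V`, so `g t ∈ D` and `t ∈ ⋃_{g ∈ D} Icc g (g + V)`;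
otherwise `[t - V, t]` contains no point of `G` (a point of `G` in it would be in `(0,t]`, not `t` itself since `S` avoids
`G`, and larger than `g t`; note `t - V > g t > 0`).
So `S ⊆ (⋃_{g∈D} Icc g (g+V)) ∪ {t ∈ Icc x y | no point of G in [t - V, t]}`, `D` is finite,
and subadditivity of `volume` gives the claim (`measureReal_biUnion_finset_le`, `measureReal_union_le`, finite measures:
everything is inside a bounded interval).
-/

open MeasureTheory Set Filter Topology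

namespace Pool.Agent.H24.GP

theorem windows_zero {G : Set ℝ} {x y T δ V g₀ : ℝ} (hG : (G ∩ Ioc 0 T).Finite) (hδ : 0 < δ) (hV : 0 < V)
    (hg : g₀ ∈ G) (hg0 : 0 < g₀) (hgx : g₀ < x) (hyT : y ≤ T)
    {S : Set ℝ} (hSxy : S ⊆ Icc x y) (h0 : ∀ t ∈ S, ∀ g ∈ G, δ / 2 < |t - g|) :
    volume.real S ≤ V * ((({g | g ∈ G ∧ x - V ≤ g ∧ 0 < g ∧ g ≤ T ∧ ∀ g' ∈ G, g < g' → g + δ < g'} : Set ℝ).ncard : ℕ) : ℝ)
      + volume.real {t | t ∈ Icc x y ∧ ∀ g ∈ G, ¬ (t - V ≤ g ∧ g ≤ t)} := by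
  obtain ⟨D, hD⟩ : ∃ D : Set ℝ, D =
      {g | g ∈ G ∧ x - V ≤ g ∧ 0 < g ∧ g ≤ T ∧ ∀ g' ∈ G, g < g' → g + δ < g'} := ⟨_, rfl⟩
  obtain ⟨E, hE⟩ : ∃ E : Set ℝ, E =
      {t | t ∈ Icc x y ∧ ∀ g ∈ G, ¬ (t - V ≤ g ∧ g ≤ t)} := ⟨_, rfl⟩
  rw [← hD, ← hE]
  have hDf : D.Finite := by
    refine hG.subset ?_
    intro g hgD
    rw [hD] at hgD
    exact ⟨hgD.1, hgD.2.2.1, hgD.2.2.2.1⟩
  have hEb : E ⊆ Icc x y := by
    intro t ht
    rw [hE] at ht
    exact ht.1
  have hEfin : volume E ≠ ⊤ :=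
    ne_top_of_le_ne_top (by simp) (measure_mono hEb)
  have hUfin : volume (⋃ g ∈ hDf.toFinset, Icc g (g + V)) ≠ ⊤ := by
    refine ne_top_of_le_ne_top ?_ (measure_biUnion_finset_le hDf.toFinset fun g => Icc g (g + V))
    refine (ENNReal.sum_lt_top.2 fun g _ => ?_).ne
    rw [Real.volume_Icc]
    exact ENNReal.ofReal_lt_top
  have hsub : S ⊆ (⋃ g ∈ hDf.toFinset, Icc g (g + V)) ∪ E := by
    intro t ht
    have htxy := hSxy ht
    have hne : ({g | g ∈ G ∧ 0 < g ∧ g < t} : Set ℝ).Nonempty :=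
      ⟨g₀, hg, hg0, lt_of_lt_of_le hgx htxy.1⟩
    have hfin : ({g | g ∈ G ∧ 0 < g ∧ g < t} : Set ℝ).Finite := by
      refine hG.subset ?_
      rintro g ⟨h1, h2, h3⟩
      exact ⟨h1, h2, (h3.le.trans htxy.2).trans hyT⟩
    obtain ⟨g, ⟨hgG, hgp, hgt⟩, hgm⟩ := Set.exists_max_image _ (fun g : ℝ => g) hfin hne
    have h1 : δ / 2 < t - g := by
      have := h0 t ht g hgG
      rwa [abs_of_pos (by linarith)] at this
    have h2 : ∀ g' ∈ G, g < g' → t + δ / 2 < g' := by
      intro g' hg' hlt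
      have h3 : t ≤ g' := by
        by_contra hcon
        have := hgm g' ⟨hg', hgp.trans hlt, not_le.1 hcon⟩
        linarith
      have h4 := h0 t ht g' hg'
      rw [abs_of_nonpos (by linarith)] at h4
      linarith
    by_cases hV' : t - g ≤ V
    · left
      rw [Set.mem_iUnion₂]
      refine ⟨g, ?_, ?_, ?_⟩
      · rw [Set.Finite.mem_toFinset, hD]
        refine ⟨hgG, ?_, hgp, ?_, fun g' hg' hlt => ?_⟩
        · have := htxy.1
          linarith
        · have := htxy.2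
          linarith
        · have := h2 g' hg' hlt
          linarith
      · exact hgt.le
      · linarith
    · right
      rw [hE]
      refine ⟨htxy, fun g' hg' hh => ?_⟩
      have := h2 g' hg' (by linarith [hh.1])
      linarith [hh.2]
  have hm1 : volume.real S ≤ volume.real ((⋃ g ∈ hDf.toFinset, Icc g (g + V)) ∪ E) := by
    refine measureReal_mono hsub ?_
    exact ne_top_of_le_ne_top (ENNReal.add_ne_top.2 ⟨hUfin, hEfin⟩) (measure_union_le _ _)
  have hm2 : volume.real ((⋃ g ∈ hDf.toFinset, Icc g (g + V)) ∪ E) ≤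
      volume.real (⋃ g ∈ hDf.toFinset, Icc g (g + V)) + volume.real E := measureReal_union_le _ _
  have hm3 : volume.real (⋃ g ∈ hDf.toFinset, Icc g (g + V)) ≤
      ∑ g ∈ hDf.toFinset, volume.real (Icc g (g + V)) := measureReal_biUnion_finset_le _ _
  have hm4 : ∑ g ∈ hDf.toFinset, volume.real (Icc g (g + V)) = V * (D.ncard : ℝ) := by
    have h5 : ∀ g ∈ hDf.toFinset, volume.real (Icc g (g + V)) = V := by
      intro g _
      rw [Real.volume_real_Icc, add_sub_cancel_left, max_eq_left hV.le]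
    rw [Finset.sum_congr rfl h5, Finset.sum_const, nsmul_eq_mul,
      Set.ncard_eq_toFinset_card _ hDf, mul_comm]
  linarith

end Pool.Agent.H24.GP
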