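import Mathlib
import Pool.Agent.H6.Final

/-!
Row GPPg. Long empty windows are rare.

Take `s, Φ` from `exists_neg_out`.  For `N > 2 s`, `N ≥ 1` put `Φ_N u = Φ (u / N)`: `TestFn (s/N) Φ_N` with `s/N < 1/2`
(`cosT Φ_N ξ = N * cosT Φ (N ξ)`, change of variables; decay: `(1+u^2) ≤ N^2 (1 + (u/N)^2)`).
By `Inputs.mean` and `Inputs.meanSq` (for `I` from `exists_inputs RH`), with `m = N * cosT Φ 0`, as `T → ∞`:
`avg T (fun t => (SS gZ wZ Φ_N (log T) t - m)^2) → m^2 + ∫ |ξ| N^2 (cosT Φ (N ξ))^2 dξ - 2 m * m + m^2 = C_Φ :=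
∫ |ξ| (cosT Φ ξ)^2 dξ` (change of variables), independent of `N`.
If `t ∈ [0,T]` and `N * (2π/log T) < |t - gZ i|` for all `i`, then each `Φ_N (log T (t - gZ i)/(2π)) ≤ 0`, so
`SS ≤ 0` (tsum of nonpositive terms), so `(SS - m)^2 ≥ m^2`.  Chebyshev (`SS` continuous: `Inputs.continuous_SS`):
`m^2 * vol {…} ≤ T * avg T ((SS - m)^2) ≤ (C_Φ + 1) T` eventually.  Choose `N` with `(C_Φ + 1)/(N cosT Φ 0)^2 ≤ ε`,
`K = 2 π N`.
-/

open MeasureTheory Set Filter Topology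
open Pool.Agent Pool.Agent.H6
open scoped Real

namespace Pool.Agent.H24.GP

private lemma testFn_dilate {s : ℝ} {φ : ℝ → ℝ} (h : TestFn s φ) {R : ℝ} (hR : 0 < R) :
    TestFn (s / R) (fun u => φ (u / R)) := by
  obtain ⟨C, hC0, hC⟩ := h.decay
  refine ⟨h.cont.comp (continuous_id.div_const R), fun u => by rw [neg_div, h.even], ?_, ?_⟩
  · refine ⟨(1 + R ^ 2) ^ 2 * C, by positivity, fun u => ?_⟩
    refine (hC (u / R)).trans ?_
    rw [div_le_div_iff₀ (by positivity) (by positivity)]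
    have h1 : 1 + u ^ 2 ≤ (1 + R ^ 2) * (1 + (u / R) ^ 2) := by
      have e : (1 + R ^ 2) * (1 + (u / R) ^ 2) = 1 + R ^ 2 + (u / R) ^ 2 + u ^ 2 := by
        have : R ≠ 0 := hR.ne'
        field_simp
        ring
      rw [e]
      have e1 : 0 ≤ R ^ 2 := sq_nonneg R
      have e2 : 0 ≤ (u / R) ^ 2 := sq_nonneg _
      linarith
    calc C * (1 + u ^ 2) ^ 2 ≤ C * ((1 + R ^ 2) * (1 + (u / R) ^ 2)) ^ 2 :=
          mul_le_mul_of_nonneg_left (pow_le_pow_left₀ (by positivity) h1 2) hC0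
      _ = (1 + R ^ 2) ^ 2 * C * (1 + (u / R) ^ 2) ^ 2 := by ring
  · intro ξ hξ
    rw [cosT_dilate φ hR, h.supp, mul_zero]
    rw [abs_mul, abs_of_pos hR, mul_comm]
    rwa [div_le_iff₀ hR] at hξ

theorem exists_neg_out : ∃ (s : ℝ) (Φ : ℝ → ℝ), 0 < s ∧ TestFn s Φ ∧ (∀ u, 1 ≤ |u| → Φ u ≤ 0) ∧ 0 < cosT Φ 0 := by
  obtain ⟨κ, hκc, hκ0, hκ1, hκz, hκe, hκd, hκs⟩ := exists_kappa
  have hκ : TestFn 1 κ := by
    obtain ⟨C, hC0, hC⟩ := hκd 2
    exact ⟨hκc, hκe, ⟨C, hC0, fun u => by rw [abs_of_nonneg (hκ0 u)]; exact hC u⟩, hκs⟩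
  have hi0 := hκ.integrable
  have hi2 := hκ.integrable_pow (k := 2) le_rfl
  have hApos : 0 < ∫ u, κ u := by
    rw [integral_pos_iff_support_of_nonneg hκ0 hi0]
    apply IsOpen.measure_pos
    · exact hκc.isOpen_support
    · exact ⟨0, by simp [hκz]⟩
  have hB0 : 0 ≤ ∫ u, u ^ 2 * κ u := integral_nonneg fun u => mul_nonneg (sq_nonneg u) (hκ0 u)
  set A : ℝ := ∫ u, κ u with hA
  set B : ℝ := ∫ u, u ^ 2 * κ u with hB
  obtain ⟨R, hR1, hRB⟩ : ∃ R : ℝ, 1 ≤ R ∧ B < A * R ^ 2 := by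
    refine ⟨1 + B / A, ?_, ?_⟩
    · have : 0 ≤ B / A := by positivity
      linarith
    · have h1 : 0 ≤ B / A := by positivity
      have h2 : 1 + B / A ≤ (1 + B / A) ^ 2 := by nlinarith
      have h3 : A * (1 + B / A) = A + B := by field_simp
      have h4 : A * (1 + B / A) ≤ A * (1 + B / A) ^ 2 := mul_le_mul_of_nonneg_left h2 hApos.le
      linarith
  have hR0 : 0 < R := by linarith
  have key : ∀ ξ, cosT (fun v => (1 - v ^ 2 / R ^ 2) * κ v) ξ =
      cosT κ ξ - (1 / R ^ 2) * cosT (fun v => v ^ 2 * κ v) ξ := by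
    intro ξ
    unfold cosT
    rw [← integral_const_mul, ← integral_sub (integrable_mul_cos hi0 ξ)
      ((integrable_mul_cos hi2 ξ).const_mul _)]
    congr 1
    ext u
    ring
  have hd2 : ∀ ξ, TestFn.d2 κ ξ = -(2 * π) ^ 2 * cosT (fun v => v ^ 2 * κ v) ξ := by
    intro ξ
    unfold TestFn.d2 cosT
    rw [← integral_const_mul]
    congr 1
    ext u
    ring
  have h1 : TestFn 2 (fun v => (1 - v ^ 2 / R ^ 2) * κ v) := by
    refine ⟨by fun_prop, fun u => by simp only [neg_sq, hκe], ?_, ?_⟩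
    · obtain ⟨C, hC0, hC⟩ := hκd 3
      refine ⟨C, hC0, fun u => ?_⟩
      rw [abs_mul, abs_of_nonneg (hκ0 u)]
      have e1 : |1 - u ^ 2 / R ^ 2| ≤ 1 + u ^ 2 := by
        have e2 : u ^ 2 / R ^ 2 ≤ u ^ 2 := div_le_self (sq_nonneg u) (one_le_pow₀ hR1)
        have e3 : 0 ≤ u ^ 2 / R ^ 2 := by positivity
        rw [abs_le]
        constructor <;> nlinarith [sq_nonneg u]
      calc |1 - u ^ 2 / R ^ 2| * κ u ≤ (1 + u ^ 2) * (C / (1 + u ^ 2) ^ 3) :=
            mul_le_mul e1 (hC u) (hκ0 u) (by positivity)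
        _ = C / (1 + u ^ 2) ^ 2 := by
            have : (1 + u ^ 2) ≠ 0 := by positivity
            field_simp
    · intro ξ hξ
      rw [key, hκ.supp ξ (by linarith)]
      have e1 := hκ.d2_eq_zero (ξ := ξ) (by linarith)
      rw [hd2] at e1
      have e2 : -(2 * π) ^ 2 ≠ 0 := by
        have : 0 < (2 * π) ^ 2 := by positivity
        exact neg_ne_zero.2 this.ne'
      rw [(mul_eq_zero.1 e1).resolve_left e2]
      ring
  have hRi : 0 < R⁻¹ := by positivity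
  refine ⟨2 / R⁻¹, fun u => (1 - (u / R⁻¹) ^ 2 / R ^ 2) * κ (u / R⁻¹), by positivity,
    testFn_dilate h1 hRi, fun u hu => ?_, ?_⟩
  · apply mul_nonpos_of_nonpos_of_nonneg _ (hκ0 _)
    have e1 : (u / R⁻¹) ^ 2 / R ^ 2 = u ^ 2 := by
      field_simp
    rw [e1]
    have e2 : 1 ≤ |u| ^ 2 := one_le_pow₀ hu
    rw [sq_abs] at e2
    linarith
  · rw [cosT_dilate (fun v => (1 - v ^ 2 / R ^ 2) * κ v) hRi, mul_zero, key]
    apply mul_pos hRi
    have e0 : cosT κ 0 = A := by unfold cosT; simp [hA]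
    have e2 : cosT (fun v => v ^ 2 * κ v) 0 = B := by unfold cosT; simp [hB]
    rw [e0, e2]
    have e3 : 1 / R ^ 2 * B < A := by
      rw [one_div, inv_mul_lt_iff₀ (by positivity)]
      linarith
    linarith

theorem empty_long (RH : RiemannHypothesis) {ε : ℝ} (hε : 0 < ε) :
    ∃ K : ℝ, 0 < K ∧ ∀ᶠ T in atTop,
      volume.real {t | t ∈ Icc 0 T ∧ ∀ i : PC.Z, K / Real.log T < |t - gZ i|} ≤ ε * T := by
  obtain ⟨CR, I⟩ := exists_inputs RH
  obtain ⟨s, Φ, hs, hΦ, hneg, hpos⟩ := exists_neg_out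
  have hC0 : 0 ≤ ∫ ξ, |ξ| * (cosT Φ ξ) ^ 2 := integral_nonneg fun ξ => by positivity
  set C₀ : ℝ := ∫ ξ, |ξ| * (cosT Φ ξ) ^ 2 with hC₀
  set m₀ : ℝ := cosT Φ 0 with hm₀
  obtain ⟨N, hN1, hNs, hNε⟩ : ∃ N : ℝ, 1 ≤ N ∧ s < N ∧ C₀ + 1 ≤ ε * (N * m₀) ^ 2 := by
    have h0 : 0 ≤ (C₀ + 1) / (ε * m₀ ^ 2) := by positivity
    refine ⟨1 + s + (C₀ + 1) / (ε * m₀ ^ 2), by linarith, by linarith, ?_⟩
    set N : ℝ := 1 + s + (C₀ + 1) / (ε * m₀ ^ 2) with hN
    have h1 : (C₀ + 1) / (ε * m₀ ^ 2) ≤ N := by rw [hN]; linarith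
    have h2 : 1 ≤ N := by rw [hN]; linarith
    have h3 : N ≤ N ^ 2 := by nlinarith
    have h4 : C₀ + 1 = (C₀ + 1) / (ε * m₀ ^ 2) * (ε * m₀ ^ 2) := by
      field_simp
    have h5 : 0 ≤ ε * m₀ ^ 2 := by positivity
    calc C₀ + 1 = (C₀ + 1) / (ε * m₀ ^ 2) * (ε * m₀ ^ 2) := h4
      _ ≤ N ^ 2 * (ε * m₀ ^ 2) := mul_le_mul_of_nonneg_right (h1.trans h3) h5
      _ = ε * (N * m₀) ^ 2 := by ring
  have hN0 : 0 < N := by linarith
  have hΦN := testFn_dilate hΦ hN0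
  have hsN : 0 < s / N := by positivity
  have hsN1 : s / N < 1 := by rw [div_lt_one hN0]; exact hNs
  have hm : cosT (fun u => Φ (u / N)) 0 = N * m₀ := by
    rw [cosT_dilate Φ hN0, mul_zero]
  have hCN : ∫ ξ, |ξ| * (cosT (fun u => Φ (u / N)) ξ) ^ 2 = C₀ := by
    have e : ∀ ξ, |ξ| * (cosT (fun u => Φ (u / N)) ξ) ^ 2 =
        N * (fun η => |η| * (cosT Φ η) ^ 2) (N * ξ) := by
      intro ξ
      rw [cosT_dilate Φ hN0]
      simp only [abs_mul, abs_of_pos hN0]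
      ring
    simp_rw [e]
    rw [integral_const_mul, Measure.integral_comp_mul_left (fun η => |η| * (cosT Φ η) ^ 2) N,
      abs_of_pos (inv_pos.2 hN0), smul_eq_mul, ← mul_assoc, mul_inv_cancel₀ hN0.ne', one_mul]
  have h1 := I.meanSq hΦN hsN hsN1
  have h2 := I.mean hΦN hsN hsN1
  rw [hCN, hm] at h1
  rw [hm] at h2
  set m : ℝ := N * m₀ with hmdef
  have hm0 : 0 < m := by positivity
  refine ⟨2 * π * N, by positivity, ?_⟩
  have hlim := (h1.add (h2.const_mul (-(2 * m)))).add_const (m ^ 2)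
  have hlim2 : ∀ᶠ T in atTop,
      avg T (fun t => SS gZ wZ (fun u => Φ (u / N)) (Real.log T) t ^ 2) +
        -(2 * m) * avg T (SS gZ wZ (fun u => Φ (u / N)) (Real.log T)) + m ^ 2 < C₀ + 1 := by
    apply hlim.eventually_lt_const
    nlinarith
  have hlog := Real.tendsto_log_atTop.eventually_ge_atTop (1 : ℝ)
  filter_upwards [hlim2, hlog, eventually_gt_atTop (0 : ℝ)] with T hT hL hT0
  have hc := I.continuous_SS hΦN hsN hL
  set S : ℝ → ℝ := SS gZ wZ (fun u => Φ (u / N)) (Real.log T) with hS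
  have hexp : avg T (fun t => (S t - m) ^ 2) =
      avg T (fun t => S t ^ 2) + -(2 * m) * avg T S + m ^ 2 := by
    have e : (fun t => (S t - m) ^ 2) = fun t => (S t ^ 2) + ((-(2 * m)) * S t + m ^ 2) := by
      ext t; ring
    rw [e, avg_add (by fun_prop) (by fun_prop), avg_add (by fun_prop) (by fun_prop), avg_const_mul]
    have e2 : avg T (fun _ => m ^ 2) = m ^ 2 := by
      unfold avg
      rw [intervalIntegral.integral_const, smul_eq_mul]
      field_simp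
      ring
    rw [e2]
    ring
  have hle : ∫ t in Icc 0 T, (S t - m) ^ 2 ≤ T * (C₀ + 1) := by
    have e1 : avg T (fun t => (S t - m) ^ 2) ≤ C₀ + 1 := by rw [hexp]; exact hT.le
    unfold avg at e1
    rw [intervalIntegral.integral_of_le hT0.le, ← integral_Icc_eq_integral_Ioc, one_div,
      inv_mul_le_iff₀ hT0] at e1
    exact e1
  have hcf : Continuous (fun t => (S t - m) ^ 2) := by fun_prop
  have hch := mul_meas_ge_le_integral_of_nonneg (μ := volume.restrict (Icc 0 T))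
    (f := fun t => (S t - m) ^ 2) (ae_of_all _ fun t => sq_nonneg _)
    (hcf.integrableOn_Icc) (m ^ 2)
  have hmeas : MeasurableSet {t | m ^ 2 ≤ (S t - m) ^ 2} :=
    (isClosed_le continuous_const hcf).measurableSet
  rw [measureReal_restrict_apply hmeas] at hch
  have hsub : {t | t ∈ Icc 0 T ∧ ∀ i : PC.Z, 2 * π * N / Real.log T < |t - gZ i|} ⊆
      {t | m ^ 2 ≤ (S t - m) ^ 2} ∩ Icc 0 T := by
    rintro t ⟨ht, hi⟩
    refine ⟨?_, ht⟩
    have hS0 : S t ≤ 0 := by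
      rw [hS]
      unfold SS
      apply tsum_nonpos
      intro i
      apply mul_nonpos_of_nonneg_of_nonpos (wZ_nonneg i)
      apply hneg
      have e := hi i
      rw [div_lt_iff₀ (by linarith)] at e
      rw [abs_div, abs_div, abs_mul, abs_of_pos Real.two_pi_pos, abs_of_pos hN0,
        abs_of_pos (by linarith : 0 < Real.log T), le_div_iff₀ hN0, le_div_iff₀ Real.two_pi_pos]
      nlinarith
    show m ^ 2 ≤ (S t - m) ^ 2
    nlinarith
  have hfin : volume ({t | m ^ 2 ≤ (S t - m) ^ 2} ∩ Icc 0 T) ≠ ⊤ :=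
    ((measure_mono inter_subset_right).trans_lt measure_Icc_lt_top).ne
  have hmono := measureReal_mono hsub hfin
  have h3 : m ^ 2 * volume.real {t | t ∈ Icc 0 T ∧ ∀ i : PC.Z, 2 * π * N / Real.log T < |t - gZ i|} ≤
      m ^ 2 * (ε * T) := by
    calc _ ≤ m ^ 2 * volume.real ({t | m ^ 2 ≤ (S t - m) ^ 2} ∩ Icc 0 T) :=
          mul_le_mul_of_nonneg_left hmono (sq_nonneg m)
      _ ≤ _ := hch
      _ ≤ _ := hle
      _ ≤ T * (ε * m ^ 2) := mul_le_mul_of_nonneg_left hNε hT0.le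
      _ = _ := by ring
  exact le_of_mul_le_mul_left h3 (by positivity)

end Pool.Agent.H24.GP
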