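import Mathlib
import Pool.Agent.H6.Final
import Pool.Agent.H24.GP.Pd
import Pool.Agent.H24.GP.Pg

/-!
Row GPPh. Conclusion of the large gap theorem from the measure statement.

Proof.  From `h`: `R, c`.  Put `T' = T/R`, `L' = log T'`, `S = {t | SS gZ wZ ψ L' t < 1} ∩ Icc (T'/R) (R T')`,
`x = T/R^2`, `y = T`: eventually `c T/R ≤ vol S`, `S ⊆ Icc x y`.  For `t ∈ S` no zero has `|t - gZ i| ≤ π lam/L'`:
otherwise `ψ (L' (t - gZ i)/(2π)) ≥ 1`, `wZ i ≥ 1` (`one_le_wZ`) and `SS ≥ 1` (`ψ ≥ 0`; the sum is summable: `ψ` has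
compact support and is bounded, use `Ordinates.summable_phi` with `|ψ u| ≤ C/(1+u^2)^2`, or finiteness of the ordinates in
a bounded interval; then `le_tsum`/`Summable.le_tsum`).  `empty_long` with `ε = c/(2R)`: `K`; put `V = 2 K / log T`,
`δ = 2 π lam / L'`.  `windows_zero` with `G = PC.Z` (range of `gZ`; `(PC.Z ∩ Ioc 0 T).Finite`: `finite_ordinates`), some
positive ordinate `g₀` (exists: by `Inputs.count` the counting function tends to infinity), `x > g₀` eventually: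
`c T/R ≤ V * card D + vol {t ∈ Icc x y | no point of Z in [t-V,t]}`; the last set is contained in the translate by `V/2` of
`{t ∈ Icc 0 T | ∀ i, K/log T < |t - gZ i|}` (as `x ≥ V/2`), of measure `≤ c T/(2R)`. So `card D ≥ c T log T/(4 R K)`.
Map `D → ` the set of the statement by `g ↦ 1/2 + g I` (injective): for `g ∈ D`, `g ≥ x - V ≥ T/(2R^2)`, so
`(7/2) * (2π/log g) ≤ 7π/(log T - log (2R^2)) ≤ 2π lam/L' = δ` eventually, because `2 lam > 7` and the ratio of the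
logarithms tends to `1`.  A nontrivial zero `ρ'` with `ρ'.im > g` is `1/2 + g' I` with `g' ∈ PC.Z` (`re_eq_half`), so
`g + δ < g'`.  `Set.ncard_le_ncard`/`ncard_image_of_injective` with finiteness of `PC.zerosUpTo T` (image of `FZ T`; see
`pairSet_eq`, `zerosProd_eq` for the pattern).  Finally `T log T/(4RK) c = (2π c/(4RK)) PC.norm T`.
-/

open MeasureTheory Set Filter Topology
open Pool.Agent Pool.Agent.H6
open scoped Real

namespace Pool.Agent.H24.GP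

private lemma Ph_sum (RH : RiemannHypothesis) {ψ : ℝ → ℝ} (hψc : Continuous ψ)
    {s : ℝ} (hψs : ∀ x, s ≤ |x| → ψ x = 0) {L : ℝ} (hL : 2 * π ≤ L) (t : ℝ) :
    Summable fun i : PC.Z => wZ i * ψ (L * (t - gZ i) / (2 * π)) := by
  obtain ⟨CR, I⟩ := exists_inputs RH
  have hcs : HasCompactSupport ψ := by
    apply HasCompactSupport.intro (K := Icc (-|s|) |s|) isCompact_Icc
    intro x hx
    apply hψs
    by_contra h
    rw [not_le] at h
    exact hx (abs_le.1 (h.le.trans (le_abs_self s)))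
  have hcs2 : HasCompactSupport (fun u => (1 + u ^ 2) ^ 2 * ψ u) := hcs.mul_left
  obtain ⟨C, hC⟩ := hcs2.exists_bound_of_continuous (by fun_prop)
  have hC0 : 0 ≤ C := (norm_nonneg _).trans (hC 0)
  have h1 : ∀ u, |ψ u| ≤ C / (1 + u ^ 2) ^ 2 := by
    intro u
    have h2 := hC u
    have h3 : 0 < (1 + u ^ 2) ^ 2 := by positivity
    rw [le_div_iff₀ h3]
    rw [Real.norm_eq_abs, abs_mul, abs_of_pos h3] at h2
    linarith [mul_comm (|ψ u|) ((1 + u ^ 2) ^ 2)]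
  exact (I.ord.summable_phi hC0 h1 hL t).of_abs

/-- no zero in a short window around a point where the sum is below `1` -/
private lemma Ph_far (RH : RiemannHypothesis) {ψ : ℝ → ℝ} (hψc : Continuous ψ) (hψ0 : ∀ x, 0 ≤ ψ x)
    {s : ℝ} (hψs : ∀ x, s ≤ |x| → ψ x = 0) {lam : ℝ} (hψ1 : ∀ x, |x| ≤ lam / 2 → 1 ≤ ψ x)
    {L : ℝ} (hL : 2 * π ≤ L) {t : ℝ} (ht : SS gZ wZ ψ L t < 1) (i : PC.Z) :
    2 * π * lam / L / 2 < |t - gZ i| := by
  by_contra hn
  rw [not_lt] at hn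
  have hπ : 0 < 2 * π := by positivity
  have hL0 : 0 < L := lt_of_lt_of_le hπ hL
  have h1 : |L * (t - gZ i) / (2 * π)| ≤ lam / 2 := by
    rw [abs_div, abs_mul, abs_of_pos hL0, abs_of_pos hπ, div_le_iff₀ hπ]
    have h2 : L * |t - gZ i| ≤ L * (2 * π * lam / L / 2) := mul_le_mul_of_nonneg_left hn hL0.le
    have h3 : L * (2 * π * lam / L / 2) = lam / 2 * (2 * π) := by
      field_simp
    linarith
  have h2 := hψ1 _ h1
  have h3 := one_le_wZ i
  have h4 : 1 ≤ wZ i * ψ (L * (t - gZ i) / (2 * π)) := by nlinarith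
  have h5 : wZ i * ψ (L * (t - gZ i) / (2 * π)) ≤ SS gZ wZ ψ L t := by
    unfold SS
    exact (Ph_sum RH hψc hψs hL t).le_tsum i fun j _ => mul_nonneg (wZ_nonneg j) (hψ0 _)
  linarith

private lemma Ph_g0 (RH : RiemannHypothesis) : ∃ g₀ : ℝ, g₀ ∈ PC.Z ∧ 0 < g₀ := by
  obtain ⟨CR, I⟩ := exists_inputs RH
  obtain ⟨T, hT⟩ := (I.count.eventually (lt_mem_nhds zero_lt_one)).exists
  have h2 : (FZ T).Nonempty := by
    rw [Finset.nonempty_iff_ne_empty]
    intro h3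
    rw [h3, Finset.sum_empty, mul_zero] at hT
    exact lt_irrefl _ hT
  obtain ⟨i, hi⟩ := h2
  exact ⟨gZ i, i.2, ((mem_FZ T i).1 hi).1⟩

private lemma Ph_fin (T : ℝ) : (PC.Z ∩ Ioc 0 T).Finite := by
  have h1 := (finite_ordinates T).image (fun i : PC.Z => (i : ℝ))
  refine h1.subset ?_
  rintro g ⟨hg, h2, h3⟩
  exact ⟨⟨g, hg⟩, ⟨h2, h3⟩, rfl⟩

private lemma Ph_finz (RH : RiemannHypothesis) (T : ℝ) : (PC.zerosUpTo T).Finite := by
  have h1 := (Ph_fin T).image (fun g : ℝ => (1 / 2 + (g : ℂ) * Complex.I : ℂ))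
  refine h1.subset ?_
  rintro ρ ⟨a1, a2, a3, a4, a5⟩
  have e1 := re_eq_half RH a1 a2 a3
  refine ⟨ρ.im, ⟨?_, a4, a5⟩, e1.symm⟩
  unfold PC.Z
  rw [Set.mem_ofPred_eq, ← e1]
  exact a1

/-- the windows of length `V` without zeros -/
private lemma Ph_shift {x T V : ℝ} (hV : 0 < V) (hx : V / 2 ≤ x) :
    volume.real {t | t ∈ Icc x T ∧ ∀ g ∈ PC.Z, ¬ (t - V ≤ g ∧ g ≤ t)} ≤
      volume.real {t | t ∈ Icc 0 T ∧ ∀ i : PC.Z, V / 2 < |t - gZ i|} := by
  have h1 : {t | t ∈ Icc x T ∧ ∀ g ∈ PC.Z, ¬ (t - V ≤ g ∧ g ≤ t)} ⊆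
      (fun t => t - V / 2) ⁻¹' {t | t ∈ Icc 0 T ∧ ∀ i : PC.Z, V / 2 < |t - gZ i|} := by
    rintro t ⟨ht, h2⟩
    refine ⟨⟨?_, ?_⟩, fun i => ?_⟩
    · show 0 ≤ t - V / 2
      linarith [ht.1]
    · show t - V / 2 ≤ T
      linarith [ht.2]
    · have h3 := h2 (gZ i) i.2
      show V / 2 < |t - V / 2 - gZ i|
      by_contra h4
      rw [not_lt, abs_le] at h4
      exact h3 ⟨by linarith [h4.2], by linarith [h4.1]⟩
  have h2 : volume ((fun t => t - V / 2) ⁻¹' {t | t ∈ Icc 0 T ∧ ∀ i : PC.Z, V / 2 < |t - gZ i|}) =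
      volume {t | t ∈ Icc 0 T ∧ ∀ i : PC.Z, V / 2 < |t - gZ i|} := by
    simpa [sub_eq_add_neg] using measure_preimage_add_right volume (-(V / 2))
      {t | t ∈ Icc 0 T ∧ ∀ i : PC.Z, V / 2 < |t - gZ i|}
  have h3 : volume {t | t ∈ Icc 0 T ∧ ∀ i : PC.Z, V / 2 < |t - gZ i|} < ⊤ :=
    lt_of_le_of_lt (measure_mono (fun t ht => ht.1)) (measure_Icc_lt_top (a := 0) (b := T))
  unfold Measure.real
  refine ENNReal.toReal_mono h3.ne ?_
  rw [← h2]
  exact measure_mono h1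

theorem large_of_measure (RH : RiemannHypothesis) {ψ : ℝ → ℝ} (hψc : Continuous ψ) (hψ0 : ∀ x, 0 ≤ ψ x)
    {s : ℝ} (hψs : ∀ x, s ≤ |x| → ψ x = 0) {lam : ℝ} (hlam : 7 / 2 < lam) (hψ1 : ∀ x, |x| ≤ lam / 2 → 1 ≤ ψ x)
    (h : ∃ R c : ℝ, 1 ≤ R ∧ 0 < c ∧ ∀ᶠ T in atTop,
      c * T ≤ volume.real ({t | SS gZ wZ ψ (Real.log T) t < 1} ∩ Icc (T / R) (R * T))) :
    ∃ c : ℝ, 0 < c ∧ ∀ᶠ T in atTop, c * PC.norm T ≤
      ((({ρ : ℂ | ρ ∈ PC.zerosUpTo T ∧ ∀ ρ' : ℂ, riemannZeta ρ' = 0 → 0 < ρ'.re → ρ'.re < 1 → ρ.im < ρ'.im →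
        ρ.im + 7 / 2 * (2 * π / Real.log ρ.im) ≤ ρ'.im} : Set ℂ).ncard : ℕ) : ℝ) := by
  obtain ⟨R, c, hR1, hc, hev⟩ := h
  have hR0 : 0 < R := by linarith
  have hε : 0 < c / (2 * R) := by positivity
  obtain ⟨K, hK, hKev⟩ := empty_long RH hε
  obtain ⟨g₀, hg₀, hg₀0⟩ := Ph_g0 RH
  have hπ : 0 < 2 * π := by positivity
  have hlogR : 0 ≤ Real.log R := Real.log_nonneg hR1
  obtain ⟨M, hM⟩ : ∃ M : ℝ, M = 2 * Real.log R + Real.log 2 := ⟨_, rfl⟩
  have hlog2 : 0 < Real.log 2 := Real.log_pos one_lt_two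
  have e1 : ∀ᶠ T in atTop, c * (T / R) ≤
      volume.real ({t | SS gZ wZ ψ (Real.log (T / R)) t < 1} ∩ Icc (T / R / R) (R * (T / R))) :=
    (tendsto_id.atTop_div_const hR0).eventually hev
  refine ⟨2 * π * c / (4 * R * K), by positivity, ?_⟩
  filter_upwards [e1, hKev, eventually_gt_atTop (0 : ℝ),
    Real.tendsto_log_atTop.eventually_ge_atTop (2 * π + Real.log R),
    Real.tendsto_log_atTop.eventually_ge_atTop (M + 1),
    Real.tendsto_log_atTop.eventually_ge_atTop (2 * K),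
    Real.tendsto_log_atTop.eventually_ge_atTop ((lam * M - 7 / 2 * Real.log R) / (lam - 7 / 2)),
    eventually_gt_atTop (R * R * (2 + g₀))] with T h1 h2 hT0 h3 h4 h5 h6 h7
  have hlT : 0 < Real.log T := by linarith
  have hlog : Real.log (T / R) = Real.log T - Real.log R := Real.log_div hT0.ne' hR0.ne'
  have hL : 2 * π ≤ Real.log (T / R) := by rw [hlog]; linarith
  have hL0 : 0 < Real.log (T / R) := lt_of_lt_of_le hπ hL
  have hRT : R * (T / R) = T := by field_simp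
  rw [hRT] at h1
  obtain ⟨x, hx⟩ : ∃ x : ℝ, x = T / R / R := ⟨_, rfl⟩
  rw [← hx] at h1
  have hx2 : 2 + g₀ < x := by
    rw [hx, div_div, lt_div_iff₀ (by positivity)]
    linarith
  have hlogx : Real.log (x / 2) = Real.log T - M := by
    rw [hx, Real.log_div (by positivity) two_ne_zero, Real.log_div (by positivity) hR0.ne', hlog, hM]
    ring
  obtain ⟨V, hVdef⟩ : ∃ V : ℝ, V = 2 * K / Real.log T := ⟨_, rfl⟩
  have hV0 : 0 < V := by rw [hVdef]; positivity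
  have hV1 : V ≤ 1 := by
    rw [hVdef, div_le_one hlT]
    exact h5
  have hV2 : V / 2 = K / Real.log T := by rw [hVdef]; ring
  obtain ⟨δ, hδdef⟩ : ∃ δ : ℝ, δ = 2 * π * lam / Real.log (T / R) := ⟨_, rfl⟩
  have hlam0 : 0 < lam := by linarith
  have hδ0 : 0 < δ := by rw [hδdef]; positivity
  obtain ⟨S, hS⟩ : ∃ S : Set ℝ, S = {t | SS gZ wZ ψ (Real.log (T / R)) t < 1} ∩ Icc x T := ⟨_, rfl⟩
  rw [← hS] at h1
  have hSxy : S ⊆ Icc x T := by rw [hS]; exact inter_subset_right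
  have hfar : ∀ t ∈ S, ∀ g ∈ PC.Z, δ / 2 < |t - g| := by
    intro t ht g hg
    rw [hS] at ht
    rw [hδdef]
    exact Ph_far RH hψc hψ0 hψs hψ1 hL ht.1 ⟨g, hg⟩
  have h8 := windows_zero (Ph_fin T) hδ0 hV0 hg₀ hg₀0 (show g₀ < x by linarith) le_rfl hSxy hfar
  have h9 := Ph_shift (x := x) (T := T) hV0 (by linarith)
  rw [hV2] at h9
  obtain ⟨D, hD⟩ : ∃ D : Set ℝ, D = {g | g ∈ PC.Z ∧ x - V ≤ g ∧ 0 < g ∧ g ≤ T ∧
    ∀ g' ∈ PC.Z, g < g' → g + δ < g'} := ⟨_, rfl⟩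
  rw [← hD] at h8
  have h10 : D.ncard ≤ ({ρ : ℂ | ρ ∈ PC.zerosUpTo T ∧ ∀ ρ' : ℂ, riemannZeta ρ' = 0 → 0 < ρ'.re → ρ'.re < 1 →
      ρ.im < ρ'.im → ρ.im + 7 / 2 * (2 * π / Real.log ρ.im) ≤ ρ'.im} : Set ℂ).ncard := by
    have hinj : Function.Injective (fun g : ℝ => (1 / 2 + (g : ℂ) * Complex.I : ℂ)) := by
      intro a b hab
      have := congrArg Complex.im hab
      simpa using this
    rw [← Set.ncard_image_of_injective D hinj]
    apply Set.ncard_le_ncard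
    · rintro ρ ⟨g, hg, rfl⟩
      rw [hD] at hg
      obtain ⟨g1, g2, g3, g4, g5⟩ := hg
      have him : (1 / 2 + (g : ℂ) * Complex.I : ℂ).im = g := by simp
      have hre : (1 / 2 + (g : ℂ) * Complex.I : ℂ).re = 1 / 2 := by simp
      refine ⟨⟨g1, ?_, ?_, ?_, ?_⟩, ?_⟩
      · rw [hre]; norm_num
      · rw [hre]; norm_num
      · rw [him]; exact g3
      · rw [him]; exact g4
      · intro ρ' a1 a2 a3 a4
        rw [him] at a4 ⊢
        have e2 := re_eq_half RH a1 a2 a3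
        have hz : ρ'.im ∈ PC.Z := by
          unfold PC.Z
          rw [Set.mem_ofPred_eq, ← e2]
          exact a1
        have h11 := g5 _ hz a4
        have h12 : Real.log T - M ≤ Real.log g := by
          rw [← hlogx]
          exact Real.log_le_log (by linarith) (by linarith)
        have h13 : 0 < Real.log g := by linarith
        have h14 : 7 / 2 * (2 * π / Real.log g) ≤ δ := by
          have h15 : 7 / 2 * (2 * π / Real.log g) = (7 / 2 * (2 * π)) / Real.log g := by ring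
          rw [h15, hδdef, div_le_div_iff₀ h13 hL0]
          have h16 : 7 / 2 * Real.log (T / R) ≤ lam * Real.log g := by
            have h17 : lam * (Real.log T - M) ≤ lam * Real.log g := mul_le_mul_of_nonneg_left h12 hlam0.le
            rw [div_le_iff₀ (by linarith)] at h6
            rw [hlog]
            nlinarith
          nlinarith
        linarith
    · exact (Ph_finz RH T).subset fun ρ hρ => hρ.1
  have h11 : (D.ncard : ℝ) ≤ (({ρ : ℂ | ρ ∈ PC.zerosUpTo T ∧ ∀ ρ' : ℂ, riemannZeta ρ' = 0 → 0 < ρ'.re → ρ'.re < 1 →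
      ρ.im < ρ'.im → ρ.im + 7 / 2 * (2 * π / Real.log ρ.im) ≤ ρ'.im} : Set ℂ).ncard : ℝ) := by
    exact_mod_cast h10
  refine le_trans ?_ h11
  have h12 : c * (T / R) ≤ V * D.ncard + c / (2 * R) * T := by linarith
  have h13 : c * T / (2 * R) ≤ V * D.ncard := by
    have h14 : c * (T / R) - c / (2 * R) * T = c * T / (2 * R) := by
      field_simp
      ring
    linarith
  have h14 : 2 * π * c / (4 * R * K) * PC.norm T = c * T / (2 * R) / V := by
    unfold PC.norm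
    rw [hVdef]
    field_simp
    ring
  rw [h14, div_le_iff₀ hV0]
  linarith [mul_comm V (D.ncard : ℝ)]

end Pool.Agent.H24.GP
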