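import Mathlib
import Pool.Agent.H6.Final

/-!
Row GPPv. Continuity of `SS gZ wZ ψ L` for a continuous compactly supported `ψ` and `L > 0`, and its integrability
facts.

Proof of `continuous_SS'`.  Fix `t₀`; for `|t - t₀| < 1` only the ordinates with `|t₀ - gZ i| ≤ 1 + 2π s/L` contribute, and
these are finitely many: `{i : PC.Z | |gZ i| ≤ R}` is finite (from the summability `Ordinates.summable` at `t = 0` with weights
`wZ i ≥ 1`: `∑ wZ i/(1 + (gZ i)^2) < ∞` gives finiteness of `{i | gZ i ^2 ≤ R^2}` since each term there is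
`≥ 1/(1+R^2)`, `Summable.finite…`/`Summable.tendsto_cofinite_zero`; the instance `(exists_inputs RH)` gives `I.ord`).
So `SS` is locally a finite sum of continuous functions (`continuous_tsum_of_…`/`continuousAt` by congruence with a
`Finset.sum` near `t₀`, `tsum_eq_sum`).
`SS_nonneg'`: `tsum_nonneg`.
-/

open MeasureTheory Set Filter Topology
open Pool.Agent Pool.Agent.H6
open scoped Real

namespace Pool.Agent.H24.GP

theorem finite_abs (RH : RiemannHypothesis) (R : ℝ) : {i : PC.Z | |gZ i| ≤ R}.Finite := by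
  obtain ⟨CR, I⟩ := exists_inputs RH
  have hs := I.ord.summable 0
  have h1 := hs.tendsto_cofinite_zero
  have hc : (0 : ℝ) < 1 / (1 + R ^ 2) := by positivity
  have h2 := h1.eventually_lt_const hc
  rw [Filter.eventually_cofinite] at h2
  refine h2.subset ?_
  intro i hi
  rw [Set.mem_setOf_eq] at hi
  rw [Set.mem_setOf_eq, not_lt]
  have h3 : (gZ i) ^ 2 ≤ R ^ 2 := by
    rw [← sq_abs (gZ i)]
    exact pow_le_pow_left₀ (abs_nonneg _) hi 2
  have h4 : (0 - gZ i) ^ 2 = (gZ i) ^ 2 := by ring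
  rw [h4, div_le_div_iff₀ (by positivity) (by positivity)]
  have h5 := one_le_wZ i
  nlinarith [sq_nonneg R]

theorem continuous_SS' (RH : RiemannHypothesis) {ψ : ℝ → ℝ} (hψc : Continuous ψ)
    {s : ℝ} (hψs : ∀ x, s ≤ |x| → ψ x = 0) {L : ℝ} (hL : 0 < L) : Continuous (SS gZ wZ ψ L) := by
  rw [continuous_iff_continuousAt]
  intro t₀
  have hfin := finite_abs RH (|t₀| + 1 + 2 * π * |s| / L)
  have hg : ∀ g : ℝ, Continuous fun t : ℝ => ψ (L * (t - g) / (2 * π)) := fun g =>
    hψc.comp (by fun_prop)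
  have hcont : ContinuousAt (fun t => ∑ i ∈ hfin.toFinset, wZ i * ψ (L * (t - gZ i) / (2 * π))) t₀ := by
    apply Continuous.continuousAt
    exact continuous_finsetSum _ fun i _ => continuous_const.mul (hg (gZ i))
  refine hcont.congr ?_
  have hball : ∀ᶠ t in 𝓝 t₀, |t - t₀| < 1 := by
    have h := Metric.ball_mem_nhds t₀ one_pos
    filter_upwards [h] with t ht
    rw [Metric.mem_ball, Real.dist_eq] at ht
    exact ht
  filter_upwards [hball] with t ht
  symm
  unfold SS
  apply tsum_eq_sum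
  intro i hi
  rw [Set.Finite.mem_toFinset, Set.mem_setOf_eq, not_le] at hi
  have h1 : |t| ≤ |t₀| + 1 := by
    have h2 := abs_sub_abs_le_abs_sub t t₀
    linarith
  have h3 : 2 * π * |s| / L < |t - gZ i| := by
    have h4 := abs_sub_abs_le_abs_sub (gZ i) t
    rw [abs_sub_comm (gZ i) t] at h4
    linarith
  have h5 : s ≤ |L * (t - gZ i) / (2 * π)| := by
    have hπ : (0 : ℝ) < 2 * π := by positivity
    rw [abs_div, abs_mul, abs_of_pos hL, abs_of_pos hπ, le_div_iff₀ hπ]
    rw [div_lt_iff₀ hL] at h3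
    have h6 := le_abs_self s
    nlinarith
  rw [hψs _ h5, mul_zero]

theorem SS_nonneg' {ψ : ℝ → ℝ} (hψ0 : ∀ x, 0 ≤ ψ x) (L t : ℝ) : 0 ≤ SS gZ wZ ψ L t := by
  unfold SS
  exact tsum_nonneg fun i => mul_nonneg (wZ_nonneg i) (hψ0 _)

end Pool.Agent.H24.GP
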