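import Mathlib
import Pool.Agent.H6.Final
import Pool.Agent.H14.GP.Defs
import Pool.Agent.H24.GP.Pa
import Pool.Agent.H24.GP.Pv
import Pool.Agent.H24.GP.Pe
import Pool.Agent.H24.GP.Ph

/-!
Row GPPz. From the resonance inequality in the mean to the two conclusions.

`v : Wgt v`: `v ≥ 0` smooth, support in `[a,b]`, `0 < a < b`; `v ≤ D` for some `D` (continuous, compact support).
`small_of_EE`.  For `T ≥ e` put `ν_T = volume.withDensity (fun t => ENNReal.ofReal (v (t/T) / T))`, a finite measure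
(`T > 0`; continuous compactly supported density).  For every `f`, `∫ f dν_T = EE v T f`
(`integral_withDensity_eq_integral_toReal_smul`; order of factors and `(1/T) *` by `integral_const_mul`/`integral_mul_left`).
Continuous functions are `ν_T`-integrable (the density has compact support), so `hoelder_two` with `μ := ν_T`, `B := B T`,
`Z := SS gZ wZ ψ (log T)` (continuous: `continuous_SS'`; `≥ 0`: `SS_nonneg'`) gives
`c^4 ≤ C₁^2 C₂ ν_T{Z > 1}`; with `p = c^4/(C₁^2 C₂ + 1) > 0` (`C₂ ≥ 0` as soon as `h2` holds for one `T > 0`),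
`p ≤ ν_T.real {Z>1}` eventually.  Since `v (t/T) = 0` off `[aT,bT]` and `v ≤ D`,
`ν_T.real {Z > 1} ≤ (D/T) * vol ({Z>1} ∩ Icc (aT) (bT))`, so with `R = max 1 (max (1/a) b)` and `c' = p/D`
`c' T ≤ volume.real ({Z > 1} ∩ Icc (T/R) (R T))`, and `small_of_measure` gives the conclusion.
(If `D = 0`, take `D + 1`.)

`large_of_EE`: the same with `hoelder_zero`, `{t | SS gZ wZ ψ (log T) t < 1}` and `large_of_measure`.
-/

open MeasureTheory Set Filter Topology
open Pool.Agent Pool.Agent.H6 Pool.Agent.H14.GP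
open scoped Real

namespace Pool.Agent.H24.GP

private theorem Pz_key {v : ℝ → ℝ} (hv : Wgt v) : ∃ R D : ℝ, 1 ≤ R ∧ 0 < D ∧ ∀ T : ℝ, 0 < T →
    ∃ μ : Measure ℝ, IsFiniteMeasure μ ∧ (∀ f : ℝ → ℝ, ∫ t, f t ∂μ = EE v T f) ∧
      (∀ f : ℝ → ℝ, Continuous f → Integrable f μ) ∧
      ∀ s : Set ℝ, MeasurableSet s →
        μ.real s ≤ D / T * volume.real (s ∩ Icc (T / R) (R * T)) := by
  obtain ⟨a, b, ha, hab, hsupp⟩ := hv.supp
  have hvc : Continuous v := hv.smooth.continuous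
  have hcs : HasCompactSupport v := HasCompactSupport.intro (isCompact_Icc (a := a) (b := b))
    (fun x hx => hsupp x hx)
  obtain ⟨C, hC⟩ := hvc.bounded_above_of_compact_support hcs
  have hC' : ∀ x, v x ≤ |C| + 1 := by
    intro x
    have h1 := hC x
    rw [Real.norm_eq_abs] at h1
    linarith [le_abs_self (v x), le_abs_self C]
  refine ⟨max 1 (max (1 / a) b), |C| + 1, le_max_left _ _, by positivity, fun T hT => ?_⟩
  set R := max 1 (max (1 / a) b) with hR
  have hR1 : 1 ≤ R := le_max_left _ _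
  have hRa : 1 / a ≤ R := (le_max_left _ _).trans (le_max_right _ _)
  have hRb : b ≤ R := (le_max_right _ _).trans (le_max_right _ _)
  have hR0 : 0 < R := by linarith
  have hsT : ∀ t, t ∉ Icc (a * T) (b * T) → v (t / T) = 0 := by
    intro t ht
    apply hsupp
    intro h
    apply ht
    rw [mem_Icc, le_div_iff₀ hT, div_le_iff₀ hT] at h
    exact h
  have hdc : Continuous fun t : ℝ => v (t / T) / T := (hvc.comp (continuous_id.div_const T)).div_const T
  have hd0 : ∀ t, 0 ≤ v (t / T) / T := fun t => div_nonneg (hv.nonneg _) hT.le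
  have hint : ∀ g : ℝ → ℝ, Continuous g → Integrable (fun t => v (t / T) / T * g t) volume := by
    intro g hg
    apply (hdc.mul hg).integrable_of_hasCompactSupport
    apply HasCompactSupport.intro (isCompact_Icc (a := a * T) (b := b * T))
    intro t ht
    show v (t / T) / T * g t = 0
    rw [hsT t ht, zero_div, zero_mul]
  have hdm : Measurable fun t : ℝ => ENNReal.ofReal (v (t / T) / T) :=
    hdc.measurable.ennreal_ofReal
  have hlt : ∀ᵐ t ∂(volume : Measure ℝ), ENNReal.ofReal (v (t / T) / T) < ⊤ :=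
    Filter.Eventually.of_forall fun t => ENNReal.ofReal_lt_top
  refine ⟨volume.withDensity fun t => ENNReal.ofReal (v (t / T) / T), ?_, ?_, ?_, ?_⟩
  · apply isFiniteMeasure_withDensity_ofReal
    have h1 := hint (fun _ => 1) continuous_const
    simp only [mul_one] at h1
    exact h1.hasFiniteIntegral
  · intro f
    rw [integral_withDensity_eq_integral_toReal_smul hdm hlt, EE, ← integral_const_mul]
    congr 1
    funext t
    rw [ENNReal.toReal_ofReal (hd0 t), smul_eq_mul]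
    ring
  · intro f hf
    rw [integrable_withDensity_iff_integrable_smul' hdm hlt]
    refine (hint f hf).congr (Filter.Eventually.of_forall fun t => ?_)
    simp only [ENNReal.toReal_ofReal (hd0 t), smul_eq_mul]
  · intro s hs
    have h1 : (volume.withDensity fun t => ENNReal.ofReal (v (t / T) / T)) s ≤
        ENNReal.ofReal ((|C| + 1) / T) * volume (s ∩ Icc (T / R) (R * T)) := by
      rw [withDensity_apply _ hs, inter_comm, ← Measure.restrict_apply measurableSet_Icc,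
        ← lintegral_indicator_const measurableSet_Icc]
      apply lintegral_mono
      intro t
      simp only [indicator]
      split_ifs with ht
      · apply ENNReal.ofReal_le_ofReal
        exact div_le_div_of_nonneg_right (hC' _) hT.le
      · rw [hsT t, zero_div, ENNReal.ofReal_zero]
        intro h
        apply ht
        rw [mem_Icc] at h ⊢
        have h3 : T / R ≤ a * T := by
          rw [div_le_iff₀ hR0]
          rw [div_le_iff₀ ha] at hRa
          nlinarith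
        have h4 : b * T ≤ R * T := mul_le_mul_of_nonneg_right hRb hT.le
        exact ⟨h3.trans h.1, h.2.trans h4⟩
    have h2 : volume (s ∩ Icc (T / R) (R * T)) ≠ ⊤ :=
      ne_top_of_le_ne_top (isCompact_Icc.measure_lt_top).ne (measure_mono inter_subset_right)
    have h3 := ENNReal.toReal_mono (ENNReal.mul_ne_top ENNReal.ofReal_ne_top h2) h1
    rw [ENNReal.toReal_mul, ENNReal.toReal_ofReal (by positivity)] at h3
    exact h3

section
variable (RH : RiemannHypothesis) {v : ℝ → ℝ} (hv : Wgt v) {ψ : ℝ → ℝ} (hψc : Continuous ψ) (hψ0 : ∀ x, 0 ≤ ψ x)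
  {B : ℝ → ℝ → ℝ} (hBc : ∀ᶠ T in atTop, Continuous (B T)) (hB0 : ∀ᶠ T in atTop, ∀ t, 0 ≤ B T t) {c C₁ : ℝ} (hc : 0 < c)
  (h1 : ∀ᶠ T in atTop, EE v T (fun t => B T t ^ 2) ≤ C₁)
include RH hv hψc hψ0 hBc hB0 hc h1

theorem small_of_EE {C₂ : ℝ} (hψ1 : ∀ x, ψ x ≤ 1) {μ b : ℝ} (hμ : 0 < μ) (hb : μ < b)
    (hψs : ∀ x, μ / 2 < |x| → ψ x = 0)
    (h2 : ∀ᶠ T in atTop, EE v T (fun t => SS gZ wZ ψ (Real.log T) t ^ 4) ≤ C₂)
    (h : ∀ᶠ T in atTop, c ≤ EE v T (fun t => B T t * (SS gZ wZ ψ (Real.log T) t - 1))) :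
    ∃ c : ℝ, 0 < c ∧ ∀ᶠ T in atTop, (1 + c) * PC.norm T ≤ PC.pairCount T 0 b := by
  obtain ⟨R, D, hR, hD, hkey⟩ := Pz_key hv
  have hK : 0 < C₁ ^ 2 * |C₂| + 1 := by positivity
  refine small_of_measure RH hψc hψ0 hψ1 hμ hb hψs
    ⟨R, c ^ 4 / ((C₁ ^ 2 * |C₂| + 1) * D), hR, by positivity, ?_⟩
  filter_upwards [hBc, hB0, h1, h2, h, eventually_gt_atTop 1] with T k1 k2 k3 k4 k5 k6
  have hT0 : 0 < T := by linarith
  obtain ⟨ν, hν, e1, e2, e3⟩ := hkey T hT0
  have hZc : Continuous (SS gZ wZ ψ (Real.log T)) :=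
    continuous_SS' RH hψc (s := μ) (fun x hx => hψs x (by linarith)) (Real.log_pos k6)
  have hZ0 : ∀ t, 0 ≤ SS gZ wZ ψ (Real.log T) t := fun t => SS_nonneg' hψ0 _ _
  have h6 := hoelder_two (μ := ν) (C₁ := C₁) (C₂ := C₂) k1 hZc k2 hZ0 (e2 _ (k1.pow 2)) (e2 _ (hZc.pow 4)) hc
    (by rw [e1]; exact k3) (by rw [e1]; exact k4) (by rw [e1]; exact k5)
  have h7 := e3 {t | 1 < SS gZ wZ ψ (Real.log T) t} (isOpen_lt continuous_const hZc).measurableSet
  have hm0 : 0 ≤ ν.real {t | 1 < SS gZ wZ ψ (Real.log T) t} := measureReal_nonneg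
  have h8 : C₁ ^ 2 * C₂ * ν.real {t | 1 < SS gZ wZ ψ (Real.log T) t} ≤
      (C₁ ^ 2 * |C₂| + 1) * ν.real {t | 1 < SS gZ wZ ψ (Real.log T) t} := by
    apply mul_le_mul_of_nonneg_right _ hm0
    have h9 : C₁ ^ 2 * C₂ ≤ C₁ ^ 2 * |C₂| := mul_le_mul_of_nonneg_left (le_abs_self _) (sq_nonneg _)
    linarith
  have h10 : c ^ 4 ≤ (C₁ ^ 2 * |C₂| + 1) * (D / T * volume.real
      ({t | 1 < SS gZ wZ ψ (Real.log T) t} ∩ Icc (T / R) (R * T))) :=
    (h6.trans h8).trans (mul_le_mul_of_nonneg_left h7 hK.le)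
  rw [div_mul_eq_mul_div, div_le_iff₀ (by positivity)]
  have h11 : (C₁ ^ 2 * |C₂| + 1) * (D / T * volume.real
      ({t | 1 < SS gZ wZ ψ (Real.log T) t} ∩ Icc (T / R) (R * T))) * T =
      volume.real ({t | 1 < SS gZ wZ ψ (Real.log T) t} ∩ Icc (T / R) (R * T)) *
        ((C₁ ^ 2 * |C₂| + 1) * D) := by
    field_simp
  rw [← h11]
  exact mul_le_mul_of_nonneg_right h10 hT0.le

theorem large_of_EE {s : ℝ} (hψs : ∀ x, s ≤ |x| → ψ x = 0) {lam : ℝ} (hlam : 7 / 2 < lam)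
    (hψ1 : ∀ x, |x| ≤ lam / 2 → 1 ≤ ψ x)
    (h : ∀ᶠ T in atTop, c ≤ EE v T (fun t => B T t * (1 - SS gZ wZ ψ (Real.log T) t))) :
    ∃ c : ℝ, 0 < c ∧ ∀ᶠ T in atTop, c * PC.norm T ≤
      ((({ρ : ℂ | ρ ∈ PC.zerosUpTo T ∧ ∀ ρ' : ℂ, riemannZeta ρ' = 0 → 0 < ρ'.re → ρ'.re < 1 → ρ.im < ρ'.im →
        ρ.im + 7 / 2 * (2 * π / Real.log ρ.im) ≤ ρ'.im} : Set ℂ).ncard : ℕ) : ℝ) := by
  obtain ⟨R, D, hR, hD, hkey⟩ := Pz_key hv
  have hK : 0 < |C₁| + 1 := by positivity
  refine large_of_measure RH hψc hψ0 hψs hlam hψ1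
    ⟨R, c ^ 2 / ((|C₁| + 1) * D), hR, by positivity, ?_⟩
  filter_upwards [hBc, hB0, h1, h, eventually_gt_atTop 1] with T k1 k2 k3 k5 k6
  have hT0 : 0 < T := by linarith
  obtain ⟨ν, hν, e1, e2, e3⟩ := hkey T hT0
  have hZc : Continuous (SS gZ wZ ψ (Real.log T)) :=
    continuous_SS' RH hψc hψs (Real.log_pos k6)
  have hZ0 : ∀ t, 0 ≤ SS gZ wZ ψ (Real.log T) t := fun t => SS_nonneg' hψ0 _ _
  have h6 := hoelder_zero (μ := ν) (C₁ := C₁) k1 hZc k2 hZ0 (e2 _ (k1.pow 2)) hc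
    (by rw [e1]; exact k3) (by rw [e1]; exact k5)
  have h7 := e3 {t | SS gZ wZ ψ (Real.log T) t < 1} (isOpen_lt hZc continuous_const).measurableSet
  have hm0 : 0 ≤ ν.real {t | SS gZ wZ ψ (Real.log T) t < 1} := measureReal_nonneg
  have h8 : C₁ * ν.real {t | SS gZ wZ ψ (Real.log T) t < 1} ≤
      (|C₁| + 1) * ν.real {t | SS gZ wZ ψ (Real.log T) t < 1} := by
    apply mul_le_mul_of_nonneg_right _ hm0
    linarith [le_abs_self C₁]
  have h10 : c ^ 2 ≤ (|C₁| + 1) * (D / T * volume.real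
      ({t | SS gZ wZ ψ (Real.log T) t < 1} ∩ Icc (T / R) (R * T))) :=
    (h6.trans h8).trans (mul_le_mul_of_nonneg_left h7 hK.le)
  rw [div_mul_eq_mul_div, div_le_iff₀ (by positivity)]
  have h11 : (|C₁| + 1) * (D / T * volume.real
      ({t | SS gZ wZ ψ (Real.log T) t < 1} ∩ Icc (T / R) (R * T))) * T =
      volume.real ({t | SS gZ wZ ψ (Real.log T) t < 1} ∩ Icc (T / R) (R * T)) *
        ((|C₁| + 1) * D) := by
    field_simp
  rw [← h11]
  exact mul_le_mul_of_nonneg_right h10 hT0.le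

end

end Pool.Agent.H24.GP
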