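import Mathlib
import Pool.Agent.H24.GP.Pz
import Pool.Agent.H26.GH.E
import Pool.Agent.H98.GP.Mk
import Pool.Agent.H80.GP.Small
import Pool.Agent.H87.GP.FCells

/-!
Assembly of the two theorems from the main limit (`MainLim`), the moment bounds (block M), the functional
inequalities (helper80, helper87) and the positivity block.
-/

open MeasureTheory Set Filter Topology
open Pool.Agent Pool.Agent.H6 Pool.Agent.H14.GP
open scoped Real ContDiff

namespace Pool.Agent.H24.GP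

/-- The two limits of the main theorem. -/
structure MainLim (v : ℝ → ℝ) (G : ℕ → ℝ → ℝ) (c : ℝ) (R M : ℕ) (f : ℕ → ℝ) (ψ : ℝ → ℝ) : Prop where
  l1 : Tendsto (fun T => EE v T (fun t => AR c R M f G T t ^ 2)) atTop (𝓝 ((∫ x, v x) * nu R M f ^ 2))
  l2 : Tendsto (fun T => EE v T (fun t => AR c R M f G T t ^ 2 * SS gZ wZ ψ (Real.log T) t)) atTop
    (𝓝 ((∫ x, v x) * nu R M f ^ 2 * H87GP.JJ c R M f G ψ))

theorem exists_wgt : ∃ v : ℝ → ℝ, Wgt v ∧ 0 < ∫ x, v x := by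
  let b : ContDiffBump (2 : ℝ) := ⟨1 / 2, 1, by norm_num, by norm_num⟩
  refine ⟨b, ⟨b.contDiff, ⟨1, 3, by norm_num, by norm_num, fun x hx => ?_⟩, fun x => b.nonneg⟩, b.integral_pos⟩
  apply b.zero_of_le_dist
  rw [Real.dist_eq]
  show (1 : ℝ) ≤ |x - 2|
  by_contra h
  rw [not_le, abs_lt] at h
  exact hx ⟨by linarith, by linarith⟩

theorem nice_decay {ψ : ℝ → ℝ} (hψ : Nice ψ) : ∃ D, 0 ≤ D ∧ ∀ u, |ψ u| ≤ D / (1 + u ^ 2) ^ 2 := by
  obtain ⟨B, hB0, hB⟩ := hψ.bounded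
  obtain ⟨s, hs0, hs⟩ := hψ.supp
  refine ⟨B * (1 + s ^ 2) ^ 2, by positivity, fun u => ?_⟩
  rw [le_div_iff₀ (by positivity)]
  rcases le_or_gt s |u| with h | h
  · rw [hs u h, abs_zero, zero_mul]
    positivity
  · have h1 : u ^ 2 ≤ s ^ 2 := by
      rw [← sq_abs u]
      exact pow_le_pow_left₀ (abs_nonneg u) h.le 2
    have h2 : (1 + u ^ 2) ^ 2 ≤ (1 + s ^ 2) ^ 2 := pow_le_pow_left₀ (by positivity) (by linarith) 2
    exact mul_le_mul (hB u) h2 (by positivity) hB0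

theorem continuous_AR {G : ℕ → ℝ → ℝ} {T : ℝ} (hT : 0 < T) (c : ℝ) (R M : ℕ) (f : ℕ → ℝ) :
    Continuous (fun t => AR c R M f G T t) :=
  Complex.continuous_re.comp (H98.GP.Mk_continuous_evP G hT (Amp c R M f))

section
variable (RH : RiemannHypothesis)
include RH

theorem mom_two {v : ℝ → ℝ} (hv : Wgt v) {M : ℕ} {θ : ℝ} {G : ℕ → ℝ → ℝ} (hG : Cells M θ G)
    (c : ℝ) (R : ℕ) (f : ℕ → ℝ) :
    ∃ K : ℝ, ∀ᶠ T in atTop, EE v T (fun t => (AR c R M f G T t ^ 2) ^ 2) ≤ K := by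
  obtain ⟨CR, I⟩ := exists_inputs RH
  obtain ⟨K, hK⟩ := H98.GP.EE_AR_le I hv hG c R f 4
  refine ⟨K, ?_⟩
  filter_upwards [hK] with T h
  convert h using 3 with t
  rw [← pow_mul, ← Even.pow_abs (by decide : Even 4)]

theorem mom_SS4 {v : ℝ → ℝ} (hv : Wgt v) {ψ : ℝ → ℝ} (hψ : Nice ψ) :
    ∃ K : ℝ, ∀ᶠ T in atTop, EE v T (fun t => SS gZ wZ ψ (Real.log T) t ^ 4) ≤ K := by
  obtain ⟨CR, I⟩ := exists_inputs RH
  obtain ⟨D, hD0, hD⟩ := nice_decay hψ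
  obtain ⟨K, hK⟩ := H98.GP.EE_le_of_Mom hv (H98.GP.mom_SS I hψ.continuous hD0 hD) 4
  refine ⟨K, ?_⟩
  filter_upwards [hK] with T h
  convert h using 3 with t
  rw [Even.pow_abs (by decide : Even 4)]

theorem small_gaps
    (hmain : ∀ v : ℝ → ℝ, Wgt v → ∀ (M : ℕ) (θ : ℝ) (G : ℕ → ℝ → ℝ), Cells M θ G → ∀ (f : ℕ → ℝ) (ψ : ℝ → ℝ),
      Nice ψ → 0 < nu 1 M f → MainLim v G (-1) 1 M f ψ) :
    ∃ c : ℝ, 0 < c ∧ ∀ᶠ T in atTop, (1 + c) * PC.norm T ≤ PC.pairCount T 0 (5044 / 10000) := by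
  obtain ⟨ψ, μ, hμ0, hμ1, hN, h0, h1, hs, M, θ, G, f, hG, hnu, hJ⟩ := H80.GP.functional_small
  obtain ⟨v, hv, hvpos⟩ := exists_wgt
  have hm := hmain v hv M θ G hG f ψ hN hnu
  obtain ⟨K1, hK1⟩ := mom_two RH hv hG (-1) 1 f
  obtain ⟨K2, hK2⟩ := mom_SS4 RH hv hN
  set I := (∫ x, v x) * nu 1 M f ^ 2 with hI
  have hIpos : 0 < I := by positivity
  have hlim : Tendsto (fun T => EE v T (fun t => AR (-1) 1 M f G T t ^ 2 * SS gZ wZ ψ (Real.log T) t)
      - EE v T (fun t => AR (-1) 1 M f G T t ^ 2)) atTop (𝓝 (I * H87GP.JJ (-1) 1 M f G ψ - I)) := hm.l2.sub hm.l1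
  have hgap : I / 200000 < I * H87GP.JJ (-1) 1 M f G ψ - I := by
    have : I * (1 + 1 / 100000) ≤ I * H87GP.JJ (-1) 1 M f G ψ := mul_le_mul_of_nonneg_left hJ hIpos.le
    linarith
  have hev := hlim.eventually (lt_mem_nhds hgap)
  obtain ⟨s, hs0, hss⟩ := hN.supp
  refine small_of_EE RH hv hN.continuous h0 (B := fun T t => AR (-1) 1 M f G T t ^ 2) (c := I / 200000) (C₁ := K1)
    ?_ ?_ (by positivity) ?_ h1 hμ0 hμ1 hs hK2 ?_
  · filter_upwards [eventually_gt_atTop (0 : ℝ)] with T hT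
    exact (continuous_AR hT _ _ _ _).pow 2
  · exact Eventually.of_forall fun T t => sq_nonneg _
  · exact hK1
  · have hlog := Real.tendsto_log_atTop
    filter_upwards [hev, eventually_gt_atTop (0 : ℝ), hlog.eventually_gt_atTop 0] with T h hT hL
    have hSc : Continuous (SS gZ wZ ψ (Real.log T)) := continuous_SS' RH hN.continuous hss hL
    have hAc : Continuous (fun t => AR (-1) 1 M f G T t) := continuous_AR hT _ _ _ _
    have e : EE v T (fun t => AR (-1) 1 M f G T t ^ 2 * (SS gZ wZ ψ (Real.log T) t - 1))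
        = EE v T (fun t => AR (-1) 1 M f G T t ^ 2 * SS gZ wZ ψ (Real.log T) t)
          - EE v T (fun t => AR (-1) 1 M f G T t ^ 2) := by
      have e1 : (fun t => AR (-1) 1 M f G T t ^ 2 * (SS gZ wZ ψ (Real.log T) t - 1))
          = fun t => AR (-1) 1 M f G T t ^ 2 * SS gZ wZ ψ (Real.log T) t + (-1) * AR (-1) 1 M f G T t ^ 2 := by
        ext t; ring
      have hc1 : Continuous (fun t => AR (-1) 1 M f G T t ^ 2 * SS gZ wZ ψ (Real.log T) t) := (hAc.pow 2).mul hSc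
      have hc2 : Continuous (fun t => (-1) * AR (-1) 1 M f G T t ^ 2) := continuous_const.mul (hAc.pow 2)
      rw [e1, H26.GH.EE_add hv hT hc1 hc2, H26.GH.EE_const_mul]
      ring
    rw [e]
    exact h.le

theorem large_gaps
    (hmain : ∀ v : ℝ → ℝ, Wgt v → ∀ (M : ℕ) (θ : ℝ) (G : ℕ → ℝ → ℝ), Cells M θ G → ∀ (f : ℕ → ℝ) (ψ : ℝ → ℝ),
      Nice ψ → 0 < nu 4 M f → MainLim v G 2 4 M f ψ) :
    ∃ c : ℝ, 0 < c ∧ ∀ᶠ T in atTop, c * PC.norm T ≤
      ((({ρ : ℂ | ρ ∈ PC.zerosUpTo T ∧ ∀ ρ' : ℂ, riemannZeta ρ' = 0 → 0 < ρ'.re → ρ'.re < 1 → ρ.im < ρ'.im →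
        ρ.im + 7 / 2 * (2 * π / Real.log ρ.im) ≤ ρ'.im} : Set ℂ).ncard : ℕ) : ℝ) := by
  obtain ⟨ψ, hN, h0, ⟨lam, hlam, hlam1⟩, M, θ, G, f, hG, hnu, hJ⟩ := H87GP.functional_large
  obtain ⟨v, hv, hvpos⟩ := exists_wgt
  have hm := hmain v hv M θ G hG f ψ hN hnu
  obtain ⟨K1, hK1⟩ := mom_two RH hv hG 2 4 f
  set I := (∫ x, v x) * nu 4 M f ^ 2 with hI
  have hIpos : 0 < I := by positivity
  have hlim : Tendsto (fun T => EE v T (fun t => AR 2 4 M f G T t ^ 2)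
      - EE v T (fun t => AR 2 4 M f G T t ^ 2 * SS gZ wZ ψ (Real.log T) t)) atTop
        (𝓝 (I - I * H87GP.JJ 2 4 M f G ψ)) := hm.l1.sub hm.l2
  have hgap : I / 2000 < I - I * H87GP.JJ 2 4 M f G ψ := by
    have : I * H87GP.JJ 2 4 M f G ψ ≤ I * (1 - 1 / 1000) := mul_le_mul_of_nonneg_left hJ hIpos.le
    linarith
  have hev := hlim.eventually (lt_mem_nhds hgap)
  obtain ⟨s, hs0, hss⟩ := hN.supp
  refine large_of_EE RH hv hN.continuous h0 (B := fun T t => AR 2 4 M f G T t ^ 2) (c := I / 2000) (C₁ := K1)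
    ?_ ?_ (by positivity) ?_ hss hlam (fun x hx => (hlam1 x hx).ge) ?_
  · filter_upwards [eventually_gt_atTop (0 : ℝ)] with T hT
    exact (continuous_AR hT _ _ _ _).pow 2
  · exact Eventually.of_forall fun T t => sq_nonneg _
  · exact hK1
  · have hlog := Real.tendsto_log_atTop
    filter_upwards [hev, eventually_gt_atTop (0 : ℝ), hlog.eventually_gt_atTop 0] with T h hT hL
    have hSc : Continuous (SS gZ wZ ψ (Real.log T)) := continuous_SS' RH hN.continuous hss hL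
    have hAc : Continuous (fun t => AR 2 4 M f G T t) := continuous_AR hT _ _ _ _
    have e : EE v T (fun t => AR 2 4 M f G T t ^ 2 * (1 - SS gZ wZ ψ (Real.log T) t))
        = EE v T (fun t => AR 2 4 M f G T t ^ 2)
          - EE v T (fun t => AR 2 4 M f G T t ^ 2 * SS gZ wZ ψ (Real.log T) t) := by
      have e1 : (fun t => AR 2 4 M f G T t ^ 2 * (1 - SS gZ wZ ψ (Real.log T) t))
          = fun t => AR 2 4 M f G T t ^ 2 + (-1) * (AR 2 4 M f G T t ^ 2 * SS gZ wZ ψ (Real.log T) t) := by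
        ext t; ring
      have hc1 : Continuous (fun t => (-1) * (AR 2 4 M f G T t ^ 2 * SS gZ wZ ψ (Real.log T) t)) :=
        continuous_const.mul ((hAc.pow 2).mul hSc)
      have hc2 : Continuous (fun t => AR 2 4 M f G T t ^ 2) := hAc.pow 2
      rw [e1, H26.GH.EE_add hv hT hc2 hc1, H26.GH.EE_const_mul]
      ring
    rw [e]
    exact h.le

end

end Pool.Agent.H24.GP
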