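import Mathlib
import Pool.Agent.H24.GP.Asm
import Pool.Agent.H14.GP.Main

/-!
MP_103a5c_GP: the two theorems.
-/

open MeasureTheory Set Filter Topology
open Pool.Agent Pool.Agent.H6 Pool.Agent.H14.GP
open scoped Real ContDiff

namespace Pool.Agent.H24.GP

/-- RH: a positive proportion of small gaps. -/
theorem smallGaps (RH : RiemannHypothesis) :
    ∃ c : ℝ, 0 < c ∧ ∀ᶠ T in atTop, (1 + c) * PC.norm T ≤ PC.pairCount T 0 (5044 / 10000) := by
  obtain ⟨CR, I⟩ := exists_inputs RH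
  exact small_gaps RH fun v hv M θ G hG f ψ hN hnu =>
    ⟨AR_limit hv hG (by norm_num) le_rfl f, main_limit I hv hG (by norm_num) le_rfl f hnu hN⟩

/-- RH: a positive proportion of large gaps. -/
theorem largeGaps (RH : RiemannHypothesis) :
    ∃ c : ℝ, 0 < c ∧ ∀ᶠ T in atTop, c * PC.norm T ≤
      ((({ρ : ℂ | ρ ∈ PC.zerosUpTo T ∧ ∀ ρ' : ℂ, riemannZeta ρ' = 0 → 0 < ρ'.re → ρ'.re < 1 → ρ.im < ρ'.im →
        ρ.im + 7 / 2 * (2 * π / Real.log ρ.im) ≤ ρ'.im} : Set ℂ).ncard : ℕ) : ℝ) := by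
  obtain ⟨CR, I⟩ := exists_inputs RH
  exact large_gaps RH fun v hv M θ G hG f ψ hN hnu =>
    ⟨AR_limit hv hG (by norm_num) (by norm_num) f, main_limit I hv hG (by norm_num) (by norm_num) f hnu hN⟩

end Pool.Agent.H24.GP
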