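import Mathlib

/-!
Row GPPb (Mathlib only). From a weighted density on the line to Lebesgue measure of the part of `S T` in `[T/R, RT]`.

Proof. `ω` is integrable, so there is `R ≥ 1` with `∫_{|x| > R} ω + ∫_{|x| < 1/R} ω ≤ p/2` (dominated convergence, or
`tendsto_setIntegral_of_antitone` for the sets `{|x| > n} ∪ {|x| < 1/n}` with intersection `{0}`, a null set).
After the change of variable `t = T x`, `(1/T) ∫_{S T} ω(t/T) dt = ∫_{S T / T} ω(x) dx`; hence for large `T > 0`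
`p/2 ≤ (1/T) ∫_{t ∈ S T, T/R ≤ |t| ≤ RT} ω(t/T) dt ≤ (B/T) * vol {t ∈ S T, T/R ≤ |t| ≤ RT}`, and by the symmetry
`t ↦ -t` of `S T` the last volume is `≤ 2 vol (S T ∩ [T/R, RT])`.  So `c = p/(4 max B 1)`.
-/

open MeasureTheory Set Filter Topology

namespace Pool.Agent.H24.GP

lemma GPPb_exR {ω : ℝ → ℝ} (hi : Integrable ω) {p : ℝ} (hp : 0 < p) :
    ∃ R : ℝ, 1 ≤ R ∧ ∫ x in {x : ℝ | 1 / R ≤ |x| ∧ |x| ≤ R}ᶜ, ω x ≤ p / 2 := by
  set A : ℕ → Set ℝ := fun n => {x : ℝ | 1 / ((n : ℝ) + 1) ≤ |x| ∧ |x| ≤ (n : ℝ) + 1} with hA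
  have hAm : ∀ n, MeasurableSet (A n) := by
    intro n
    exact (measurableSet_le measurable_const continuous_abs.measurable).inter
      (measurableSet_le continuous_abs.measurable measurable_const)
  have hmono : Monotone A := by
    intro m n hmn x hx
    have h1 : (m : ℝ) ≤ n := by exact_mod_cast hmn
    have h0 : (0 : ℝ) ≤ m := Nat.cast_nonneg m
    refine ⟨le_trans ?_ hx.1, le_trans hx.2 (by linarith)⟩
    exact one_div_le_one_div_of_le (by linarith) (by linarith)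
  have hun : (⋃ n, A n) = {0}ᶜ := by
    ext x
    rw [mem_iUnion, mem_compl_iff, mem_singleton_iff]
    constructor
    · rintro ⟨n, hn⟩ h0
      have h1 := hn.1
      rw [h0, abs_zero] at h1
      have h2 : (0 : ℝ) < 1 / ((n : ℝ) + 1) := by positivity
      linarith
    · intro hx
      have hx' : 0 < |x| := abs_pos.mpr hx
      obtain ⟨m, hm⟩ := exists_nat_ge (max |x| (1 / |x|))
      refine ⟨m, ?_, ?_⟩
      · have h1 : 1 / |x| ≤ (m : ℝ) + 1 := by
          have := le_trans (le_max_right _ _) hm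
          linarith
        rw [div_le_iff₀ (by positivity)]
        rw [div_le_iff₀ hx'] at h1
        linarith
      · have := le_trans (le_max_left _ _) hm
        linarith
  have ht := tendsto_setIntegral_of_monotone (μ := volume) hAm hmono
    (hi.integrableOn (s := ⋃ n, A n))
  have he : ∫ x in ⋃ n, A n, ω x = ∫ x, ω x := by
    rw [hun]
    have h1 : ({0}ᶜ : Set ℝ) =ᵐ[volume] (univ : Set ℝ) := by
      rw [ae_eq_univ, compl_compl]
      exact measure_singleton 0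
    rw [setIntegral_congr_set h1, Measure.restrict_univ]
  rw [he] at ht
  have hlt : (∫ x, ω x) - p / 2 < ∫ x, ω x := by linarith
  obtain ⟨n, hn⟩ := (ht.eventually (lt_mem_nhds hlt)).exists
  refine ⟨(n : ℝ) + 1, by have := Nat.cast_nonneg (α := ℝ) n; linarith, ?_⟩
  have h2 := integral_add_compl (hAm n) hi
  have h3 : ∫ x in (A n)ᶜ, ω x ≤ p / 2 := by linarith
  exact h3

lemma GPPb_cov {ω : ℝ → ℝ} {T R : ℝ} (hT : 0 < T) (hR : 0 < R) :
    ∫ t in {t : ℝ | T / R ≤ |t| ∧ |t| ≤ R * T}ᶜ, ω (t / T) =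
      T * ∫ x in {x : ℝ | 1 / R ≤ |x| ∧ |x| ≤ R}ᶜ, ω x := by
  have hm : ∀ a b : ℝ, MeasurableSet {x : ℝ | a ≤ |x| ∧ |x| ≤ b}ᶜ := by
    intro a b
    exact ((measurableSet_le measurable_const continuous_abs.measurable).inter
      (measurableSet_le continuous_abs.measurable measurable_const)).compl
  rw [← integral_indicator (hm _ _), ← integral_indicator (hm _ _)]
  have h1 := Measure.integral_comp_div
    (fun x => indicator {x : ℝ | 1 / R ≤ |x| ∧ |x| ≤ R}ᶜ ω x) T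
  rw [abs_of_pos hT, smul_eq_mul] at h1
  rw [← h1]
  apply integral_congr_ae
  refine Eventually.of_forall fun t => ?_
  have h2 : (t ∈ {t : ℝ | T / R ≤ |t| ∧ |t| ≤ R * T}ᶜ) ↔
      (t / T ∈ {x : ℝ | 1 / R ≤ |x| ∧ |x| ≤ R}ᶜ) := by
    rw [mem_compl_iff, mem_compl_iff, mem_ofPred_eq, mem_ofPred_eq, abs_div, abs_of_pos hT,
      div_le_div_iff₀ hR hT, div_le_iff₀ hT, div_le_iff₀ hR, one_mul]
  show indicator _ (fun t => ω (t / T)) t = indicator _ ω (t / T)
  by_cases h3 : t ∈ {t : ℝ | T / R ≤ |t| ∧ |t| ≤ R * T}ᶜ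
  · rw [indicator_of_mem h3, indicator_of_mem (h2.mp h3)]
  · rw [indicator_of_notMem h3, indicator_of_notMem (fun h => h3 (h2.mpr h))]

lemma GPPb_sym {S : Set ℝ} (hsym : ∀ t, t ∈ S → -t ∈ S) {a b : ℝ} :
    volume.real (S ∩ {t : ℝ | a ≤ |t| ∧ |t| ≤ b}) ≤ 2 * volume.real (S ∩ Icc a b) := by
  have hsub : S ∩ {t : ℝ | a ≤ |t| ∧ |t| ≤ b} ⊆ (S ∩ Icc a b) ∪ (Neg.neg ⁻¹' (S ∩ Icc a b)) := by
    rintro t ⟨ht, h1, h2⟩
    rcases le_total 0 t with h | h
    · rw [abs_of_nonneg h] at h1 h2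
      exact Or.inl ⟨ht, h1, h2⟩
    · rw [abs_of_nonpos h] at h1 h2
      exact Or.inr ⟨hsym t ht, h1, h2⟩
  have hfin : volume (S ∩ Icc a b) < ⊤ :=
    lt_of_le_of_lt (measure_mono inter_subset_right) measure_Icc_lt_top
  have hneg : volume (Neg.neg ⁻¹' (S ∩ Icc a b)) = volume (S ∩ Icc a b) :=
    Measure.measure_preimage_neg volume _
  have hfin2 : volume (Neg.neg ⁻¹' (S ∩ Icc a b)) < ⊤ := by
    rw [hneg]
    exact hfin
  calc volume.real (S ∩ {t : ℝ | a ≤ |t| ∧ |t| ≤ b})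
      ≤ volume.real ((S ∩ Icc a b) ∪ (Neg.neg ⁻¹' (S ∩ Icc a b))) :=
        measureReal_mono hsub (by
          exact (measure_union_lt_top hfin hfin2).ne)
    _ ≤ volume.real (S ∩ Icc a b) + volume.real (Neg.neg ⁻¹' (S ∩ Icc a b)) :=
        measureReal_union_le _ _
    _ = 2 * volume.real (S ∩ Icc a b) := by
        have h3 : volume.real (Neg.neg ⁻¹' (S ∩ Icc a b)) = volume.real (S ∩ Icc a b) := by
          unfold Measure.real
          rw [hneg]
        rw [h3]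
        ring

theorem transfer {ω : ℝ → ℝ} (hω : Continuous ω) (h0 : ∀ x, 0 ≤ ω x) (hi : Integrable ω) {B : ℝ}
    (hb : ∀ x, ω x ≤ B) {S : ℝ → Set ℝ} (hS : ∀ T, MeasurableSet (S T)) (hsym : ∀ T t, t ∈ S T → -t ∈ S T)
    {p : ℝ} (hp : 0 < p) (h : ∀ᶠ T in atTop, p ≤ (1 / T) * ∫ t in S T, ω (t / T)) :
    ∃ R c : ℝ, 1 ≤ R ∧ 0 < c ∧ ∀ᶠ T in atTop, c * T ≤ volume.real (S T ∩ Icc (T / R) (R * T)) := by
  obtain ⟨R, hR1, hR2⟩ := GPPb_exR hi hp
  have hR0 : 0 < R := by linarith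
  have hB1 : (1 : ℝ) ≤ max B 1 := le_max_right _ _
  refine ⟨R, p / (4 * max B 1), hR1, by positivity, ?_⟩
  filter_upwards [h, eventually_gt_atTop (0 : ℝ)] with T hT hT0
  have hm : MeasurableSet {t : ℝ | T / R ≤ |t| ∧ |t| ≤ R * T} :=
    (measurableSet_le measurable_const continuous_abs.measurable).inter
      (measurableSet_le continuous_abs.measurable measurable_const)
  have hint : Integrable (fun t => ω (t / T)) := hi.comp_div hT0.ne'
  have h1 : ∫ t in S T, ω (t / T) =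
      (∫ t in S T ∩ {t : ℝ | T / R ≤ |t| ∧ |t| ≤ R * T}, ω (t / T)) +
      ∫ t in S T \ {t : ℝ | T / R ≤ |t| ∧ |t| ≤ R * T}, ω (t / T) :=
    (integral_inter_add_sdiff hm hint.integrableOn).symm
  have h2 : ∫ t in S T \ {t : ℝ | T / R ≤ |t| ∧ |t| ≤ R * T}, ω (t / T) ≤
      ∫ t in {t : ℝ | T / R ≤ |t| ∧ |t| ≤ R * T}ᶜ, ω (t / T) := by
    apply setIntegral_mono_set hint.integrableOn
    · exact Eventually.of_forall fun t => h0 _
    · exact (show S T \ {t : ℝ | T / R ≤ |t| ∧ |t| ≤ R * T} ⊆ _ from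
        fun t ht => ht.2).eventuallyLE
  rw [GPPb_cov hT0 hR0] at h2
  have h3 : ∫ t in S T ∩ {t : ℝ | T / R ≤ |t| ∧ |t| ≤ R * T}, ω (t / T) ≤
      max B 1 * volume.real (S T ∩ {t : ℝ | T / R ≤ |t| ∧ |t| ≤ R * T}) := by
    have hfin : volume (S T ∩ {t : ℝ | T / R ≤ |t| ∧ |t| ≤ R * T}) < ⊤ := by
      refine lt_of_le_of_lt (measure_mono (t := Icc (-(R * T)) (R * T)) ?_) measure_Icc_lt_top
      rintro t ⟨-, -, ht⟩
      exact abs_le.mp ht
    have h4 : ∫ t in S T ∩ {t : ℝ | T / R ≤ |t| ∧ |t| ≤ R * T}, ω (t / T) ≤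
        ∫ t in S T ∩ {t : ℝ | T / R ≤ |t| ∧ |t| ≤ R * T}, max B 1 := by
      apply setIntegral_mono hint.integrableOn
      · exact integrableOn_const hfin.ne
      · exact fun t => le_trans (hb _) (le_max_left _ _)
    rw [setIntegral_const, smul_eq_mul, mul_comm _ (max B 1)] at h4
    exact h4
  have h5 := GPPb_sym (hsym T) (a := T / R) (b := R * T)
  have h6 : p * T ≤ ∫ t in S T, ω (t / T) := by
    rw [one_div, ← div_eq_inv_mul, le_div_iff₀ hT0] at hT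
    exact hT
  have h7 : T * ∫ x in {x : ℝ | 1 / R ≤ |x| ∧ |x| ≤ R}ᶜ, ω x ≤ T * (p / 2) :=
    mul_le_mul_of_nonneg_left hR2 hT0.le
  have h8 : max B 1 * volume.real (S T ∩ {t : ℝ | T / R ≤ |t| ∧ |t| ≤ R * T}) ≤
      max B 1 * (2 * volume.real (S T ∩ Icc (T / R) (R * T))) :=
    mul_le_mul_of_nonneg_left h5 (by linarith)
  have h9 : p * T ≤ 4 * max B 1 * volume.real (S T ∩ Icc (T / R) (R * T)) := by
    nlinarith [h1, h2, h3, h6, h7, h8]
  rw [div_mul_eq_mul_div, div_le_iff₀ (by positivity)]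
  linarith

end Pool.Agent.H24.GP
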