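import Mathlib

/-!
Row GPPc (Mathlib only). Many windows with two points give many close pairs.

Proof. `J i = Icc (γ i - δ/2) (γ i + δ/2)`. Put
`q t = ∑ i∈F, ∑ j∈F, (if γ j ≤ γ i then w i * w j else 0) * 1_{J i}(t) * 1_{J j}(t) - ∑ i∈F, w i * 1_{J i}(t)`
`    = ∑ i∈F, (w i ^ 2 - w i) 1_{J i}(t) + ∑_{i ≠ j, γ j ≤ γ i} w i w j 1_{J i}(t) 1_{J j}(t)`.
Since `w i ^ 2 - w i ≥ 0` (`w i = 1` or `w i ≥ 2`) we have `q ≥ 0` everywhere.  For `t ∈ S`, `1 < ∑_{i : t ∈ J i} w i`:
either exactly one `i ∈ F` has `t ∈ J i`, then `w i > 1`, so `w i ≥ 2` and `q t ≥ w i ^2 - w i ≥ 2`; or two different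
`i, j ∈ F` have `t ∈ J i ∩ J j`, say `γ j ≤ γ i`, and `q t ≥ w i w j ≥ 1`.  So `1_S ≤ q`, hence
`vol S ≤ ∫ q` (all functions are finite combinations of indicators of compact intervals, `lintegral`/`setIntegral_const`)
and `∫ 1_{J i} = δ`, `∫ 1_{J i} 1_{J j} = vol (J i ∩ J j) ≤ δ`, and `= 0` unless `|γ i - γ j| ≤ δ`:
`∫ q ≤ δ * (∑_i (w i ^2 - w i) + ∑_{i ≠ j, 0 ≤ γ i - γ j ≤ δ} w i w j) =` the right hand side.
-/

open MeasureTheory Set Filter Topology

namespace Pool.Agent.H24.GP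

/-- The weighted pair sum of a finite set of points with weights `1` or `≥ 2`. -/
theorem Pc_comb {ι : Type*} (A : Finset ι) (γ w : ι → ℝ) (hw : ∀ i ∈ A, w i = 1 ∨ 2 ≤ w i) :
    0 ≤ (∑ i ∈ A, ∑ j ∈ A, if γ j ≤ γ i then w i * w j else 0) - ∑ i ∈ A, w i ∧
    (1 < ∑ i ∈ A, w i →
      1 ≤ (∑ i ∈ A, ∑ j ∈ A, if γ j ≤ γ i then w i * w j else 0) - ∑ i ∈ A, w i) := by
  classical
  have hw1 : ∀ i ∈ A, 1 ≤ w i := fun i hi => by
    rcases hw i hi with h | h <;> linarith
  rcases A.eq_empty_or_nonempty with rfl | hne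
  · simp
  obtain ⟨i0, hi0, hmax⟩ := A.exists_max_image γ hne
  have hrow : (∑ j ∈ A, if γ j ≤ γ i0 then w i0 * w j else 0) = w i0 * ∑ j ∈ A, w j := by
    rw [Finset.mul_sum]
    exact Finset.sum_congr rfl fun j hj => if_pos (hmax j hj)
  have hother : ∀ i ∈ A.erase i0, w i ≤ ∑ j ∈ A, if γ j ≤ γ i then w i * w j else 0 := by
    intro i hi
    have hiA := Finset.mem_of_mem_erase hi
    have h1 : w i ≤ (if γ i ≤ γ i then w i * w i else 0) := by
      rw [if_pos le_rfl]
      nlinarith [hw1 i hiA]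
    refine h1.trans (Finset.single_le_sum (f := fun j => if γ j ≤ γ i then w i * w j else 0)
      (fun j hj => ?_) hiA)
    split_ifs
    · exact mul_nonneg (by linarith [hw1 i hiA]) (by linarith [hw1 j hj])
    · exact le_rfl
  have hsum : w i0 * (∑ j ∈ A, w j) + ∑ i ∈ A.erase i0, w i ≤
      ∑ i ∈ A, ∑ j ∈ A, if γ j ≤ γ i then w i * w j else 0 := by
    have h5 := Finset.add_sum_erase A
      (fun i => ∑ j ∈ A, if γ j ≤ γ i then w i * w j else 0) hi0
    rw [hrow] at h5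
    rw [← h5]
    linarith [Finset.sum_le_sum hother]
  have hW := Finset.add_sum_erase A w hi0
  have h1 := hw1 i0 hi0
  have hpos : 0 ≤ ∑ i ∈ A.erase i0, w i := Finset.sum_nonneg fun i hi => by
    linarith [hw1 i (Finset.mem_of_mem_erase hi)]
  have hge : w i0 * ((∑ j ∈ A, w j) - 1) ≤
      (∑ i ∈ A, ∑ j ∈ A, if γ j ≤ γ i then w i * w j else 0) - ∑ i ∈ A, w i := by
    linarith
  constructor
  · refine le_trans (mul_nonneg (by linarith) ?_) hge
    linarith
  · intro hgt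
    have h2 : 2 ≤ ∑ j ∈ A, w j := by
      rcases hw i0 hi0 with h | h
      · rcases (A.erase i0).eq_empty_or_nonempty with he | ⟨k, hk⟩
        · rw [he, Finset.sum_empty] at hW
          linarith
        · have h3 := Finset.single_le_sum (f := w) (fun i hi => by
            linarith [hw1 i (Finset.mem_of_mem_erase hi)]) hk
          linarith [hw1 k (Finset.mem_of_mem_erase hk)]
      · linarith
    nlinarith

/-- The intersection of two windows. -/
theorem Pc_vol (a b : ℝ) {δ : ℝ} (hδ : 0 < δ) (hab : b ≤ a) :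
    volume.real (Icc (a - δ / 2) (a + δ / 2) ∩ Icc (b - δ / 2) (b + δ / 2)) ≤
      if 0 ≤ a - b ∧ a - b ≤ δ then δ else 0 := by
  rw [Icc_inter_Icc]
  have e1 : (a - δ / 2) ⊔ (b - δ / 2) = a - δ / 2 := sup_eq_left.2 (by linarith)
  have e2 : (a + δ / 2) ⊓ (b + δ / 2) = b + δ / 2 := inf_eq_right.2 (by linarith)
  rw [e1, e2]
  split_ifs with h
  · rw [Real.volume_real_Icc_of_le (by linarith [h.2])]
    linarith
  · rw [Icc_eq_empty, measureReal_empty]
    intro hle
    exact h ⟨by linarith, by linarith⟩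

theorem Pc_int {a b δ : ℝ} : Integrable
    ((Icc (a - δ / 2) (a + δ / 2) ∩ Icc (b - δ / 2) (b + δ / 2)).indicator (fun _ => (1 : ℝ))) := by
  rw [Icc_inter_Icc]
  exact (integrable_indicator_iff measurableSet_Icc).2 (integrableOn_const (by
    rw [Real.volume_Icc]
    exact ENNReal.ofReal_ne_top))

theorem windows_two {ι : Type*} (F : Finset ι) (γ w : ι → ℝ) (hw : ∀ i ∈ F, w i = 1 ∨ 2 ≤ w i)
    {δ : ℝ} (hδ : 0 < δ) {S : Set ℝ} (hS : MeasurableSet S)
    (h2 : ∀ t ∈ S, 1 < ∑ i ∈ F, if |t - γ i| ≤ δ / 2 then w i else 0) :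
    volume.real S ≤ δ * ((∑ i ∈ F, ∑ j ∈ F, if 0 ≤ γ i - γ j ∧ γ i - γ j ≤ δ then w i * w j else 0)
      - ∑ i ∈ F, w i) := by
  classical
  obtain ⟨P, hP⟩ : ∃ P : ι → ι → ℝ → ℝ, P = fun i j =>
      (Icc (γ i - δ / 2) (γ i + δ / 2) ∩ Icc (γ j - δ / 2) (γ j + δ / 2)).indicator
        (fun _ => (1 : ℝ)) := ⟨_, rfl⟩
  have hPint : ∀ i j, Integrable (P i j) := fun i j => by
    rw [hP]
    exact Pc_int
  have hPval : ∀ i j, ∫ t, P i j t = volume.real
      (Icc (γ i - δ / 2) (γ i + δ / 2) ∩ Icc (γ j - δ / 2) (γ j + δ / 2)) := fun i j => by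
    rw [hP]
    change ∫ t, (Icc (γ i - δ / 2) (γ i + δ / 2) ∩ Icc (γ j - δ / 2) (γ j + δ / 2)).indicator
        (1 : ℝ → ℝ) t = _
    rw [integral_indicator_one (measurableSet_Icc.inter measurableSet_Icc)]
  have hmem : ∀ i t, t ∈ Icc (γ i - δ / 2) (γ i + δ / 2) ↔ |t - γ i| ≤ δ / 2 := by
    intro i t
    rw [abs_le, mem_Icc]
    constructor <;> rintro ⟨h1, h2⟩ <;> constructor <;> linarith
  have hPt : ∀ i j t, P i j t = if |t - γ i| ≤ δ / 2 ∧ |t - γ j| ≤ δ / 2 then 1 else 0 := by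
    intro i j t
    rw [hP]
    dsimp only
    rw [indicator_apply]
    simp only [mem_inter_iff, hmem]
  have hP1 : ∀ i j t, |t - γ i| ≤ δ / 2 → |t - γ j| ≤ δ / 2 → P i j t = 1 :=
    fun i j t hi hj => by rw [hPt, if_pos ⟨hi, hj⟩]
  have hP0 : ∀ i j t, ¬ (|t - γ i| ≤ δ / 2 ∧ |t - γ j| ≤ δ / 2) → P i j t = 0 :=
    fun i j t h => by rw [hPt, if_neg h]
  obtain ⟨q, hq⟩ : ∃ q : ℝ → ℝ, q = fun t => (∑ i ∈ F, ∑ j ∈ F,
      (if γ j ≤ γ i then w i * w j else 0) * P i j t) - ∑ i ∈ F, w i * P i i t := ⟨_, rfl⟩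
  have hqA : ∀ t, q t = (∑ i ∈ F.filter (fun i => |t - γ i| ≤ δ / 2),
      ∑ j ∈ F.filter (fun i => |t - γ i| ≤ δ / 2), if γ j ≤ γ i then w i * w j else 0) -
      ∑ i ∈ F.filter (fun i => |t - γ i| ≤ δ / 2), w i := by
    intro t
    rw [hq]
    dsimp only
    rw [Finset.sum_filter, Finset.sum_filter]
    congr 1
    · refine Finset.sum_congr rfl fun i _ => ?_
      by_cases hi : |t - γ i| ≤ δ / 2
      · rw [if_pos hi, Finset.sum_filter]
        refine Finset.sum_congr rfl fun j _ => ?_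
        by_cases hj : |t - γ j| ≤ δ / 2
        · rw [hP1 i j t hi hj, if_pos hj, mul_one]
        · rw [hP0 i j t (fun h => hj h.2), if_neg hj, mul_zero]
      · rw [if_neg hi]
        refine Finset.sum_eq_zero fun j _ => ?_
        rw [hP0 i j t (fun h => hi h.1), mul_zero]
    · refine Finset.sum_congr rfl fun i _ => ?_
      by_cases hi : |t - γ i| ≤ δ / 2
      · rw [hP1 i i t hi hi, if_pos hi, mul_one]
      · rw [hP0 i i t (fun h => hi h.1), if_neg hi, mul_zero]
  have hwA : ∀ t, ∀ i ∈ F.filter (fun i => |t - γ i| ≤ δ / 2), w i = 1 ∨ 2 ≤ w i :=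
    fun t i hi => hw i (Finset.mem_of_mem_filter i hi)
  have hq0 : ∀ t, 0 ≤ q t := fun t => by
    rw [hqA]
    exact (Pc_comb _ γ w (hwA t)).1
  have hq1 : ∀ t ∈ S, 1 ≤ q t := fun t ht => by
    rw [hqA]
    refine (Pc_comb _ γ w (hwA t)).2 ?_
    have h3 := h2 t ht
    rwa [← Finset.sum_filter] at h3
  have hqint : Integrable q := by
    rw [hq]
    refine Integrable.sub (integrable_finsetSum _ fun i _ => integrable_finsetSum _ fun j _ =>
      (hPint i j).const_mul _) (integrable_finsetSum _ fun i _ => (hPint i i).const_mul _)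
  have hle : volume.real S ≤ ∫ t, q t := by
    have e1 : ∫ t, S.indicator (1 : ℝ → ℝ) t = volume.real S := integral_indicator_one hS
    rw [← e1]
    by_cases hSi : Integrable (S.indicator (1 : ℝ → ℝ))
    · refine integral_mono hSi hqint fun t => ?_
      by_cases ht : t ∈ S
      · rw [indicator_of_mem ht]
        exact hq1 t ht
      · rw [indicator_of_notMem ht]
        exact hq0 t
    · rw [integral_undef hSi]
      exact integral_nonneg hq0
  have hval : ∫ t, q t = (∑ i ∈ F, ∑ j ∈ F, (if γ j ≤ γ i then w i * w j else 0) *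
      (∫ t, P i j t)) - ∑ i ∈ F, w i * (∫ t, P i i t) := by
    rw [hq, integral_sub (integrable_finsetSum _ fun i _ => integrable_finsetSum _ fun j _ =>
      (hPint i j).const_mul _) (integrable_finsetSum _ fun i _ => (hPint i i).const_mul _),
      integral_finsetSum _ (fun i _ => integrable_finsetSum _ fun j _ => (hPint i j).const_mul _),
      integral_finsetSum _ (fun i _ => (hPint i i).const_mul _)]
    congr 1
    · refine Finset.sum_congr rfl fun i _ => ?_
      rw [integral_finsetSum _ (fun j _ => (hPint i j).const_mul _)]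
      exact Finset.sum_congr rfl fun j _ => integral_const_mul _ _
    · exact Finset.sum_congr rfl fun i _ => integral_const_mul _ _
  have hdiag : ∀ i, ∫ t, P i i t = δ := by
    intro i
    rw [hPval, inter_self, Real.volume_real_Icc_of_le (by linarith)]
    ring
  have hw1 : ∀ i ∈ F, 0 ≤ w i := fun i hi => by
    rcases hw i hi with h | h <;> linarith
  refine hle.trans ?_
  rw [hval, mul_sub, Finset.mul_sum, Finset.mul_sum]
  refine sub_le_sub (Finset.sum_le_sum fun i hi => ?_) (le_of_eq ?_)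
  · rw [Finset.mul_sum]
    refine Finset.sum_le_sum fun j hj => ?_
    rw [hPval]
    by_cases hij : γ j ≤ γ i
    · rw [if_pos hij]
      have h4 := Pc_vol (γ i) (γ j) hδ hij
      have h5 : 0 ≤ w i * w j := mul_nonneg (hw1 i hi) (hw1 j hj)
      refine (mul_le_mul_of_nonneg_left h4 h5).trans (le_of_eq ?_)
      split_ifs
      · ring
      · ring
    · rw [if_neg hij, zero_mul, if_neg (fun h => hij (by linarith [h.1])), mul_zero]
  · refine Finset.sum_congr rfl fun i _ => ?_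
    rw [hdiag]
    ring

end Pool.Agent.H24.GP
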