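import Mathlib
import Pool.Agent.H6.Final

open MeasureTheory Set Filter Topology
open Pool.Agent Pool.Agent.H6
open scoped Real

/-!
Row GPPf. A band-limited function which is `≤ 0` off `(-1,1)` and has positive integral.

`κ` from `exists_kappa` (even, `≥ 0`, `κ 0 = 1`, decay of every order, `cosT κ ξ = 0` for `|ξ| ≥ 1`).  For `a > 0` put
`Φ u = (1 - u^2) * κ (u / a)`.  Continuous, even; decay: `|1 - u^2| ≤ 1 + u^2` and `κ (u/a) ≤ C (1 + (u/a)^2)^{-3}`,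
`1 + u^2 ≤ max 1 a^2 (1 + (u/a)^2)`.  `f u = κ (u/a)` is `TestFn (1/a) f` (`cosT f ξ = a * cosT κ (a ξ)`, change of
variables), and by `TestFn.d2_eq_zero`, `∫ u^2 f(u) cos (2π u ξ) du = 0` for `|ξ| > 1/a`: so `cosT Φ ξ = 0` for
`|ξ| > 1/a`, in particular for `|ξ| ≥ 2/a`: `TestFn (2/a) Φ`.  Finally `cosT Φ 0 = ∫ (1 - u^2) κ(u/a) du =
a ∫ κ - a^3 ∫ u^2 κ(u) du > 0` for `a` small, since `∫ κ > 0` (continuous, `≥ 0`, `κ 0 = 1`).
-/

namespace Pool.Agent.H24.GP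

theorem exists_neg_out : ∃ (s : ℝ) (Φ : ℝ → ℝ), 0 < s ∧ TestFn s Φ ∧ (∀ u, 1 ≤ |u| → Φ u ≤ 0) ∧ 0 < cosT Φ 0 := by
  obtain ⟨κ, hκc, hκ0, hκ1, hκz, hκe, hκd, hκs⟩ := exists_kappa
  have hκT : TestFn 1 κ := by
    refine ⟨hκc, hκe, ?_, hκs⟩
    obtain ⟨C, hC0, hC⟩ := hκd 2
    exact ⟨C, hC0, fun u => by rw [abs_of_nonneg (hκ0 u)]; exact hC u⟩
  have hκi : Integrable κ := hκT.integrable
  have hκ2 : Integrable (fun u => u ^ 2 * κ u) := hκT.integrable_pow (k := 2) (by norm_num)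
  obtain ⟨J0, hJ0⟩ : ∃ J0 : ℝ, J0 = ∫ u, κ u := ⟨_, rfl⟩
  obtain ⟨J2, hJ2⟩ : ∃ J2 : ℝ, J2 = ∫ u, u ^ 2 * κ u := ⟨_, rfl⟩
  have hJ0p : 0 < J0 := by
    rw [hJ0]
    exact integral_pos_of_integrable_nonneg_nonzero (x := 0) hκc hκi hκ0 (by rw [hκz]; exact one_ne_zero)
  have hJ2n : 0 ≤ J2 := by
    rw [hJ2]
    exact integral_nonneg fun u => mul_nonneg (sq_nonneg u) (hκ0 u)
  obtain ⟨a, ha⟩ : ∃ a : ℝ, a = Real.sqrt (J0 / (2 * (J2 + 1))) := ⟨_, rfl⟩
  have ha0 : 0 < a := by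
    rw [ha]
    exact Real.sqrt_pos.2 (by positivity)
  have ha2 : a ^ 2 * (2 * (J2 + 1)) = J0 := by
    rw [ha, Real.sq_sqrt (by positivity)]
    field_simp
  have hfT : TestFn (1 / a) (fun u => κ (u / a)) := by
    refine ⟨hκc.comp (continuous_id.div_const a), fun u => by rw [neg_div, hκe], ?_, ?_⟩
    · obtain ⟨C, hC0, hC⟩ := hκd 2
      refine ⟨C * (1 + a ^ 2) ^ 2, by positivity, fun u => ?_⟩
      rw [abs_of_nonneg (hκ0 _), le_div_iff₀ (by positivity)]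
      have h1 := hC (u / a)
      rw [le_div_iff₀ (by positivity)] at h1
      have h3 : 1 + u ^ 2 ≤ (1 + a ^ 2) * (1 + (u / a) ^ 2) := by
        have : a ^ 2 * (u / a) ^ 2 = u ^ 2 := by field_simp
        nlinarith [sq_nonneg (u / a), sq_nonneg a]
      calc κ (u / a) * (1 + u ^ 2) ^ 2 ≤ κ (u / a) * ((1 + a ^ 2) * (1 + (u / a) ^ 2)) ^ 2 :=
            mul_le_mul_of_nonneg_left (pow_le_pow_left₀ (by positivity) h3 2) (hκ0 _)
        _ = κ (u / a) * (1 + (u / a) ^ 2) ^ 2 * (1 + a ^ 2) ^ 2 := by ring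
        _ ≤ C * (1 + a ^ 2) ^ 2 := mul_le_mul_of_nonneg_right h1 (by positivity)
    · intro ξ hξ
      rw [cosT_dilate κ ha0, hκs, mul_zero]
      rw [abs_mul, abs_of_pos ha0]
      calc (1 : ℝ) = a * (1 / a) := by field_simp
        _ ≤ a * |ξ| := mul_le_mul_of_nonneg_left hξ ha0.le
  have hfi := hfT.integrable
  have hf2 : Integrable (fun u => u ^ 2 * κ (u / a)) := hfT.integrable_pow (k := 2) (by norm_num)
  have hsplit : ∀ ξ : ℝ, cosT (fun u => (1 - u ^ 2) * κ (u / a)) ξ =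
      cosT (fun u => κ (u / a)) ξ - cosT (fun u => u ^ 2 * κ (u / a)) ξ := by
    intro ξ
    unfold cosT
    rw [← integral_sub (integrable_mul_cos hfi ξ) (integrable_mul_cos hf2 ξ)]
    congr 1
    ext u
    ring
  refine ⟨2 / a, fun u => (1 - u ^ 2) * κ (u / a), by positivity, ⟨?_, ?_, ?_, ?_⟩, ?_, ?_⟩
  · have h1 : Continuous (fun u : ℝ => κ (u / a)) := hκc.comp (continuous_id.div_const a)
    exact (continuous_const.sub (continuous_pow 2)).mul h1
  · intro u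
    rw [neg_div, hκe]
    ring
  · obtain ⟨C, hC0, hC⟩ := hκd 3
    refine ⟨C * (1 + a ^ 2) ^ 3, by positivity, fun u => ?_⟩
    rw [abs_mul, abs_of_nonneg (hκ0 _), le_div_iff₀ (by positivity)]
    have h1 := hC (u / a)
    rw [le_div_iff₀ (by positivity)] at h1
    have h3 : 1 + u ^ 2 ≤ (1 + a ^ 2) * (1 + (u / a) ^ 2) := by
      have : a ^ 2 * (u / a) ^ 2 = u ^ 2 := by field_simp
      nlinarith [sq_nonneg (u / a), sq_nonneg a]
    have h4 : |1 - u ^ 2| ≤ 1 + u ^ 2 := by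
      rw [abs_le]
      constructor <;> nlinarith [sq_nonneg u]
    calc |1 - u ^ 2| * κ (u / a) * (1 + u ^ 2) ^ 2
        ≤ (1 + u ^ 2) * κ (u / a) * (1 + u ^ 2) ^ 2 := by
          apply mul_le_mul_of_nonneg_right _ (by positivity)
          exact mul_le_mul_of_nonneg_right h4 (hκ0 _)
      _ = κ (u / a) * (1 + u ^ 2) ^ 3 := by ring
      _ ≤ κ (u / a) * ((1 + a ^ 2) * (1 + (u / a) ^ 2)) ^ 3 :=
          mul_le_mul_of_nonneg_left (pow_le_pow_left₀ (by positivity) h3 3) (hκ0 _)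
      _ = κ (u / a) * (1 + (u / a) ^ 2) ^ 3 * (1 + a ^ 2) ^ 3 := by ring
      _ ≤ C * (1 + a ^ 2) ^ 3 := mul_le_mul_of_nonneg_right h1 (by positivity)
  · intro ξ hξ
    have h1 : 1 / a < |ξ| := by
      refine lt_of_lt_of_le ?_ hξ
      exact div_lt_div_of_pos_right (by norm_num) ha0
    rw [hsplit, hfT.supp ξ h1.le]
    have h2 := hfT.d2_eq_zero h1
    unfold TestFn.d2 at h2
    have h3 : (fun u => (-(2 * π) ^ 2 * (u ^ 2 * κ (u / a))) * Real.cos (2 * π * u * ξ)) =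
        fun u => (-(2 * π) ^ 2) * ((u ^ 2 * κ (u / a)) * Real.cos (2 * π * u * ξ)) := by
      ext u
      ring
    rw [h3, integral_const_mul] at h2
    have h4 : cosT (fun u => u ^ 2 * κ (u / a)) ξ = 0 := by
      rcases mul_eq_zero.1 h2 with h5 | h5
      · exfalso
        have : (0 : ℝ) < (2 * π) ^ 2 := by positivity
        linarith
      · exact h5
    rw [h4, sub_zero]
  · intro u hu
    have h1 : 1 ≤ u ^ 2 := by
      rw [← sq_abs]
      nlinarith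
    exact mul_nonpos_of_nonpos_of_nonneg (by linarith) (hκ0 _)
  · rw [hsplit]
    have e1 : cosT (fun u => κ (u / a)) 0 = a * J0 := by
      unfold cosT
      simp only [mul_zero, Real.cos_zero, mul_one]
      rw [Measure.integral_comp_div κ a, abs_of_pos ha0, ← hJ0, smul_eq_mul]
    have e2 : cosT (fun u => u ^ 2 * κ (u / a)) 0 = a ^ 3 * J2 := by
      unfold cosT
      simp only [mul_zero, Real.cos_zero, mul_one]
      have h1 : (fun u : ℝ => u ^ 2 * κ (u / a)) = fun u => a ^ 2 * (fun v => v ^ 2 * κ v) (u / a) := by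
        ext u
        simp only
        field_simp
      rw [h1, integral_const_mul, Measure.integral_comp_div (fun v => v ^ 2 * κ v) a, abs_of_pos ha0,
        ← hJ2, smul_eq_mul]
      ring
    rw [e1, e2]
    have h1 : a ^ 2 * J2 < J0 := by nlinarith [sq_nonneg a, mul_nonneg (sq_nonneg a) hJ2n]
    nlinarith

end Pool.Agent.H24.GP
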