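import Mathlib
import Pool.Agent.H6.Final

/-!
Row GPPs. Symmetry of the zeros of zeta: `γ ↦ -γ`.

`zeta_conj`: put `f s = conj (riemannZeta (conj s))`.  For `re s > 1` both are the Dirichlet series
`∑ 1/n^s` (`zeta_eq_tsum_one_div_nat_cpow`, `Complex.cpow_conj`/`natCast_cpow_conj`-type lemma, `conj_tsum`), and both are
differentiable on the connected open set `{1}ᶜ` (`differentiableAt_riemannZeta`; `DifferentiableAt.conj_conj` or
`HasDerivAt.conj_conj`), hence analytic on it, so equal there (`AnalyticOnNhd.eqOn_of_preconnected_of_eventuallyEq`,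
`isPreconnected_compl_singleton_of_one_lt_rank`).

`m_neg`: `1/2 + (-γ) I = conj (1/2 + γ I)`; for `g = fun z => conj (f (conj z))` with `f` analytic at `conj z₀`,
`analyticOrderNatAt g z₀ = analyticOrderNatAt f (conj z₀)`: if `f z = (z - conj z₀)^n * h z` near `conj z₀` with `h` analytic,
`h (conj z₀) ≠ 0`, then `g z = (z - z₀)^n * conj (h (conj z))` near `z₀` (`AnalyticAt.analyticOrderAt_eq_natCast`
/ `analyticOrderAt_eq_top`; `z ↦ conj (h (conj z))` is analytic at `z₀`: differentiable near it).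

`SS_neg`: the map `γ ↦ -γ` is a bijection (`Equiv`) of the subtype `PC.Z` with `wZ (-γ) = wZ γ`, `gZ (-γ) = - gZ γ`;
`Equiv.tsum_eq`: `SS ψ L (-t) = ∑' i, wZ i ψ (L(-t - gZ i)/2π) = ∑' i, wZ (-i) ψ (L(-t + gZ i)/2π) = SS ψ L t`
for `ψ` even.
-/

open MeasureTheory Set Filter Topology
open Pool.Agent Pool.Agent.H6
open scoped Real ComplexConjugate

namespace Pool.Agent.H24.GP

theorem zeta_conj {s : ℂ} (hs : s ≠ 1) : riemannZeta (conj s) = conj (riemannZeta s) :=
  riemannZeta_conj s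

private theorem Ps_an {g : ℂ → ℂ} {z₀ : ℂ} (hg : AnalyticAt ℂ g z₀) :
    AnalyticAt ℂ (fun z => conj (g (conj z))) (conj z₀) := by
  rw [Complex.analyticAt_iff_eventually_differentiableAt]
  have h1 : ∀ᶠ z in 𝓝 z₀, DifferentiableAt ℂ g z := by
    rw [← Complex.analyticAt_iff_eventually_differentiableAt]
    exact hg
  have h2 : Tendsto (fun z : ℂ => conj z) (𝓝 (conj z₀)) (𝓝 z₀) := by
    have h3 := (Complex.continuous_conj.tendsto (conj z₀))
    rwa [Complex.conj_conj] at h3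
  filter_upwards [h2.eventually h1] with z hz
  have h3 := hz.conj_conj
  rw [Complex.conj_conj] at h3
  exact h3

private theorem Ps_le {f : ℂ → ℂ} (hf : ∀ z, conj (f (conj z)) = f z) {z₀ : ℂ}
    (h0 : AnalyticAt ℂ f z₀) {n : ℕ} (hn : (n : ℕ∞) ≤ analyticOrderAt f z₀) :
    (n : ℕ∞) ≤ analyticOrderAt f (conj z₀) := by
  have h0' : AnalyticAt ℂ f (conj z₀) := by
    have h := Ps_an h0
    have h1 : (fun z => conj (f (conj z))) = f := funext hf
    rwa [h1] at h
  rw [natCast_le_analyticOrderAt h0] at hn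
  rw [natCast_le_analyticOrderAt h0']
  obtain ⟨g, hg, hfg⟩ := hn
  refine ⟨fun z => conj (g (conj z)), Ps_an hg, ?_⟩
  have h2 : Tendsto (fun z : ℂ => conj z) (𝓝 (conj z₀)) (𝓝 z₀) := by
    have h3 := (Complex.continuous_conj.tendsto (conj z₀))
    rwa [Complex.conj_conj] at h3
  filter_upwards [h2.eventually hfg] with z hz
  rw [← hf z, hz, smul_eq_mul, smul_eq_mul, map_mul, map_pow, map_sub, Complex.conj_conj]

private theorem Ps_eq {f : ℂ → ℂ} (hf : ∀ z, conj (f (conj z)) = f z) {z₀ : ℂ}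
    (h0 : AnalyticAt ℂ f z₀) : analyticOrderAt f (conj z₀) = analyticOrderAt f z₀ := by
  have h0' : AnalyticAt ℂ f (conj z₀) := by
    have h := Ps_an h0
    have h1 : (fun z => conj (f (conj z))) = f := funext hf
    rwa [h1] at h
  apply le_antisymm
  · refine ENat.forall_natCast_le_iff_le.mp fun n hn => ?_
    have h := Ps_le hf h0' hn
    rwa [Complex.conj_conj] at h
  · exact ENat.forall_natCast_le_iff_le.mp fun n hn => Ps_le hf h0 hn

private theorem Ps_pt (γ : ℝ) : (1 / 2 + ((-γ : ℝ) : ℂ) * Complex.I : ℂ) =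
    conj (1 / 2 + (γ : ℂ) * Complex.I) := by
  rw [map_add, map_mul, Complex.conj_I, Complex.conj_ofReal, map_div₀, map_one, map_ofNat]
  push_cast
  ring

theorem m_neg (γ : ℝ) : PC.m (-γ) = PC.m γ := by
  unfold PC.m analyticOrderNatAt
  rw [Ps_pt, Ps_eq]
  · intro z
    rw [riemannZeta_conj, Complex.conj_conj]
  · have h1 : (1 / 2 + (γ : ℂ) * Complex.I : ℂ) ≠ 1 := by
      intro h
      have h2 := congrArg Complex.re h
      norm_num at h2
    rw [Complex.analyticAt_iff_eventually_differentiableAt]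
    filter_upwards [isOpen_ne.mem_nhds h1] with z hz
    exact differentiableAt_riemannZeta hz

theorem SS_neg {ψ : ℝ → ℝ} (he : ∀ x, ψ (-x) = ψ x) (L t : ℝ) : SS gZ wZ ψ L (-t) = SS gZ wZ ψ L t := by
  have hmem : ∀ γ : ℝ, γ ∈ PC.Z → -γ ∈ PC.Z := by
    intro γ hγ
    unfold PC.Z at hγ ⊢
    rw [Set.mem_setOf_eq] at hγ ⊢
    rw [Ps_pt, riemannZeta_conj, hγ, map_zero]
  let e : PC.Z ≃ PC.Z :=
    { toFun := fun i => ⟨-i.1, hmem i.1 i.2⟩
      invFun := fun i => ⟨-i.1, hmem i.1 i.2⟩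
      left_inv := fun i => Subtype.ext (neg_neg i.1)
      right_inv := fun i => Subtype.ext (neg_neg i.1) }
  unfold SS
  rw [← Equiv.tsum_eq e]
  refine tsum_congr fun i => ?_
  have h1 : wZ (e i) = wZ i := by
    change ((PC.m (-i.1) : ℕ) : ℝ) = ((PC.m i.1 : ℕ) : ℝ)
    rw [m_neg]
  have h2 : gZ (e i) = -gZ i := rfl
  rw [h1, h2, ← he]
  congr 2
  ring

end Pool.Agent.H24.GP
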